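import Pool.Agent.Helper29.OV.ApiDefs

/-!
# The closure properties `D` and `DF` of an omega-model of ACA_0
-/

namespace Pool.Agent.Helper29.OV

open Encodable

variable {𝓜 : Set (Set ℕ)} {α β γ : Type} [Primcodable α] [Primcodable β] [Primcodable γ]

theorem D.congr {P Q : α → Prop} (hP : D 𝓜 P) (hPQ : ∀ a, P a ↔ Q a) : D 𝓜 Q := by
  have : P = Q := funext fun a => propext (hPQ a)
  rwa [← this]

theorem D.nat_iff {P : ℕ → Prop} : D 𝓜 P ↔ {n | P n} ∈ 𝓜 := by
  unfold D
  have : {n | ∃ a : ℕ, decode n = some a ∧ P a} = {n | P n} := by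
    ext n
    simp
  rw [this]

theorem D.and (h : Closed 𝓜) {P Q : α → Prop} (hP : D 𝓜 P) (hQ : D 𝓜 Q) :
    D 𝓜 fun a => P a ∧ Q a := by
  have := h.inter _ hP _ hQ
  unfold D
  convert this using 1
  ext n
  constructor
  · rintro ⟨a, ha, h1, h2⟩
    exact ⟨⟨a, ha, h1⟩, ⟨a, ha, h2⟩⟩
  · rintro ⟨⟨a, ha, h1⟩, ⟨b, hb, h2⟩⟩
    rw [ha] at hb
    cases hb
    exact ⟨a, ha, h1, h2⟩

theorem dom_mem (h : Closed 𝓜) (α : Type) [Primcodable α] :
    {n | ∃ a : α, decode n = some a} ∈ 𝓜 := by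
  have h1 := h.compl _ (h.preimage _ h.zero _ (Primcodable.prim (α := α)))
  convert h1 using 1
  ext n
  rcases hd : (decode n : Option α) with _ | a
  · simp [hd]
  · simp [hd]

theorem D.not (h : Closed 𝓜) {P : α → Prop} (hP : D 𝓜 P) : D 𝓜 fun a => ¬ P a := by
  have := h.inter _ (h.compl _ hP) _ (dom_mem h α)
  unfold D
  convert this using 1
  ext n
  constructor
  · rintro ⟨a, ha, h1⟩
    refine ⟨?_, ⟨a, ha⟩⟩
    rintro ⟨b, hb, h2⟩
    rw [ha] at hb
    cases hb
    exact h1 h2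
  · rintro ⟨h1, ⟨a, ha⟩⟩
    exact ⟨a, ha, fun h2 => h1 ⟨a, ha, h2⟩⟩

theorem D.comp (h : Closed 𝓜) {P : β → Prop} (hP : D 𝓜 P) {f : α → β} (hf : Primrec f) :
    D 𝓜 fun a => P (f a) := by
  have h1 := h.preimage _ hP _ (Nat.Primrec.pred.comp hf)
  have := h.inter _ h1 _ (dom_mem h α)
  unfold D
  convert this using 1
  ext n
  constructor
  · rintro ⟨a, ha, h2⟩
    refine ⟨?_, ⟨a, ha⟩⟩
    refine ⟨f a, ?_, h2⟩
    simp [ha]
  · rintro ⟨⟨b, hb, h2⟩, ⟨a, ha⟩⟩
    refine ⟨a, ha, ?_⟩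
    simp [ha] at hb
    change P (f a)
    rwa [hb]

theorem D.zero (h : Closed 𝓜) : D 𝓜 fun n : ℕ => n = 0 :=
  D.nat_iff.2 h.zero

theorem D.of_primrec (h : Closed 𝓜) {P : α → Prop} (hP : PrimrecPred P) : D 𝓜 P := by
  obtain ⟨hd, hp⟩ := hP
  have h1 : Primrec fun a : α => if P a then (0 : ℕ) else 1 :=
    Primrec.ite ⟨hd, hp⟩ (Primrec.const 0) (Primrec.const 1)
  refine ((D.zero h).comp h h1).congr fun a => ?_
  by_cases hPa : P a <;> simp [hPa]

theorem D.or (h : Closed 𝓜) {P Q : α → Prop} (hP : D 𝓜 P) (hQ : D 𝓜 Q) :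
    D 𝓜 fun a => P a ∨ Q a :=
  (((hP.not h).and h (hQ.not h)).not h).congr fun a => by tauto

theorem D.imp (h : Closed 𝓜) {P Q : α → Prop} (hP : D 𝓜 P) (hQ : D 𝓜 Q) :
    D 𝓜 fun a => P a → Q a :=
  ((hP.and h (hQ.not h)).not h).congr fun a => by tauto

theorem D.iff (h : Closed 𝓜) {P Q : α → Prop} (hP : D 𝓜 P) (hQ : D 𝓜 Q) :
    D 𝓜 fun a => (P a ↔ Q a) :=
  ((hP.imp h hQ).and h (hQ.imp h hP)).congr fun a => by tauto

theorem D.ex (h : Closed 𝓜) {P : α → β → Prop} (hP : D 𝓜 fun q : α × β => P q.1 q.2) :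
    D 𝓜 fun a => ∃ b, P a b := by
  have := h.proj _ hP
  unfold D
  convert this using 1
  ext n
  constructor
  · rintro ⟨a, ha, b, h1⟩
    refine ⟨encode b, (a, b), ?_, h1⟩
    simp [decode_prod_val, ha]
  · rintro ⟨k, ⟨a, b⟩, hk, h1⟩
    simp only [decode_prod_val, Nat.unpair_pair] at hk
    rcases hn : (decode n : Option α) with _ | a'
    · simp [hn] at hk
    · simp only [hn, Option.bind_some, Option.map_eq_some_iff, Prod.mk.injEq] at hk
      obtain ⟨b', hb', h2, h3⟩ := hk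
      subst h2
      exact ⟨a', hn, b, h1⟩

theorem D.all (h : Closed 𝓜) {P : α → β → Prop} (hP : D 𝓜 fun q : α × β => P q.1 q.2) :
    D 𝓜 fun a => ∀ b, P a b :=
  ((D.ex (P := fun a b => ¬ P a b) h (hP.not h)).not h).congr fun a => by simp

theorem D.const (h : Closed 𝓜) (p : Prop) : D 𝓜 fun _ : α => p := by
  have hz : D 𝓜 fun _ : α => (0 : ℕ) = 0 :=
    (D.zero h).comp h (Primrec.const (α := α) 0)
  by_cases hp : p
  · exact hz.congr fun a => by simp [hp]
  · exact (hz.not h).congr fun a => by simp [hp]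

theorem D.exFin (h : Closed 𝓜) {ι : Type} [Finite ι] {P : ι → α → Prop} (hP : ∀ i, D 𝓜 (P i)) :
    D 𝓜 fun a => ∃ i, P i a := by
  classical
  cases nonempty_fintype ι
  have : ∀ s : Finset ι, D 𝓜 fun a => ∃ i ∈ s, P i a := by
    intro s
    induction s using Finset.induction_on with
    | empty => exact (D.const h False).congr fun a => by simp
    | insert i s _ ih =>
      exact ((hP i).or h ih).congr fun a => by simp
  exact (this Finset.univ).congr fun a => by simp

theorem D.allFin (h : Closed 𝓜) {ι : Type} [Finite ι] {P : ι → α → Prop} (hP : ∀ i, D 𝓜 (P i)) :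
    D 𝓜 fun a => ∀ i, P i a :=
  ((D.exFin (P := fun i a => ¬ P i a) h fun i => (hP i).not h).not h).congr fun a => by simp

theorem DF.of_primrec (h : Closed 𝓜) {f : α → β} (hf : Primrec f) : DF 𝓜 f := by
  classical
  exact D.of_primrec h (Primrec.eq.comp (hf.comp Primrec.fst) Primrec.snd)

theorem D.compF (h : Closed 𝓜) {P : β → Prop} (hP : D 𝓜 P) {f : α → β} (hf : DF 𝓜 f) :
    D 𝓜 fun a => P (f a) :=
  (D.ex (P := fun a b => f a = b ∧ P b) h (D.and h hf (hP.comp h Primrec.snd))).congr fun a => by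
    simp

theorem DF.comp (h : Closed 𝓜) {g : β → γ} (hg : DF 𝓜 g) {f : α → β} (hf : DF 𝓜 f) :
    DF 𝓜 fun a => g (f a) := by
  have h1 : D 𝓜 fun q : (α × γ) × β => f q.1.1 = q.2 :=
    D.comp h (P := fun p : α × β => f p.1 = p.2) hf
      ((Primrec.fst.comp Primrec.fst).pair Primrec.snd)
  have h2 : D 𝓜 fun q : (α × γ) × β => g q.2 = q.1.2 :=
    D.comp h (P := fun p : β × γ => g p.1 = p.2) hg
      (Primrec.snd.pair (Primrec.snd.comp Primrec.fst))
  exact (D.ex (P := fun (q : α × γ) b => f q.1 = b ∧ g b = q.2) h (D.and h h1 h2)).congr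
    fun a => by simp

theorem DF.pair (h : Closed 𝓜) {f : α → β} {g : α → γ} (hf : DF 𝓜 f) (hg : DF 𝓜 g) :
    DF 𝓜 fun a => (f a, g a) := by
  have h1 : D 𝓜 fun q : α × (β × γ) => f q.1 = q.2.1 :=
    D.comp h (P := fun p : α × β => f p.1 = p.2) hf
      (Primrec.fst.pair (Primrec.fst.comp Primrec.snd))
  have h2 : D 𝓜 fun q : α × (β × γ) => g q.1 = q.2.2 :=
    D.comp h (P := fun p : α × γ => g p.1 = p.2) hg
      (Primrec.fst.pair (Primrec.snd.comp Primrec.snd))
  exact (D.and h h1 h2).congr fun q => by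
    rcases q with ⟨a, b, c⟩
    simp

theorem DF.eq (h : Closed 𝓜) {f g : α → β} (hf : DF 𝓜 f) (hg : DF 𝓜 g) :
    D 𝓜 fun a => f a = g a :=
  (D.ex (P := fun a b => f a = b ∧ g a = b) h (D.and h hf hg)).congr fun a => by
    constructor
    · rintro ⟨b, rfl, h2⟩
      exact h2.symm
    · intro h1
      exact ⟨f a, rfl, h1.symm⟩

theorem DF.ite (h : Closed 𝓜) {P : α → Prop} (hP : D 𝓜 P) [∀ a, Decidable (P a)] {f g : α → β}
    (hf : DF 𝓜 f) (hg : DF 𝓜 g) : DF 𝓜 fun a => if P a then f a else g a := by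
  have h1 : D 𝓜 fun q : α × β => P q.1 := hP.comp h Primrec.fst
  exact ((D.and h h1 hf).or h (D.and h (h1.not h) hg)).congr fun q => by
    by_cases hq : P q.1 <;> simp [hq]

theorem DF.sInf (h : Closed 𝓜) {P : α → ℕ → Prop} (hP : D 𝓜 fun q : α × ℕ => P q.1 q.2) :
    DF 𝓜 fun a => sInf {n | P a n} := by
  have h1 : D 𝓜 fun q : α × ℕ => ∀ k : ℕ, k < q.2 → ¬ P q.1 k := by
    refine D.all (P := fun (q : α × ℕ) k => k < q.2 → ¬ P q.1 k) h ?_
    refine D.imp h ?_ ?_
    · exact D.of_primrec h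
        (Primrec.nat_lt.comp Primrec.snd (Primrec.snd.comp Primrec.fst))
    · exact (D.comp h (P := fun q : α × ℕ => P q.1 q.2) hP
        ((Primrec.fst.comp Primrec.fst).pair Primrec.snd)).not h
  have h2 : D 𝓜 fun q : α × ℕ => ∀ k : ℕ, ¬ P q.1 k := by
    refine D.all (P := fun (q : α × ℕ) k => ¬ P q.1 k) h ?_
    exact (D.comp h (P := fun q : α × ℕ => P q.1 q.2) hP
        ((Primrec.fst.comp Primrec.fst).pair Primrec.snd)).not h
  have h3 : D 𝓜 fun q : α × ℕ => q.2 = 0 := (D.zero h).comp h Primrec.snd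
  refine ((D.and h hP h1).or h (D.and h h2 h3)).congr fun q => ?_
  obtain ⟨a, m⟩ := q
  simp only
  constructor
  · rintro (⟨h4, h5⟩ | ⟨h4, h5⟩)
    · apply le_antisymm (Nat.sInf_le h4)
      by_contra h6
      push Not at h6
      exact h5 _ h6 (Nat.sInf_mem (s := {n | P a n}) ⟨m, h4⟩)
    · subst h5
      apply Nat.sInf_eq_zero.2
      right
      ext k
      simp [h4 k]
  · rintro rfl
    by_cases he : ({n | P a n} : Set ℕ).Nonempty
    · left
      exact ⟨Nat.sInf_mem he, fun k hk => Nat.notMem_of_lt_sInf hk⟩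
    · right
      rw [Set.not_nonempty_iff_eq_empty] at he
      refine ⟨fun k hk => ?_, by simp [he]⟩
      have : k ∈ ({n | P a n} : Set ℕ) := hk
      simp [he] at this

/-- A partial list of values. -/
theorem list_rec_unique {δ : Type} (l : List δ) (f0 : δ) (g : ℕ → δ → δ) (n : ℕ)
    (h0 : l[0]? = some f0) (hs : ∀ i < n, ∀ u, l[i]? = some u → l[i+1]? = some (g i u)) :
    ∀ i ≤ n, l[i]? = some (Nat.rec f0 (fun y ih => g y ih) i : δ) := by
  intro i
  induction i with
  | zero => intro _; exact h0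
  | succ i ih =>
    intro hi
    exact hs i (by omega) _ (ih (by omega))

theorem DF.nat_rec (h : Closed 𝓜) {f : α → β} {g : α × ℕ × β → β} (hf : DF 𝓜 f) (hg : DF 𝓜 g) :
    DF 𝓜 fun p : α × ℕ => (Nat.rec (f p.1) (fun y ih => g (p.1, y, ih)) p.2 : β) := by
  have h1 : D 𝓜 fun q : ((α × ℕ) × β) × List β =>
      q.2[0]? = some (f q.1.1.1) := by
    refine DF.eq h (f := fun q : ((α × ℕ) × β) × List β => q.2[0]?) ?_ ?_
    · exact DF.of_primrec h (Primrec.list_getElem?.comp Primrec.snd (Primrec.const 0))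
    · refine DF.comp h (DF.of_primrec h Primrec.option_some) ?_
      refine DF.comp h (f := fun q : ((α × ℕ) × β) × List β => q.1.1.1) hf ?_
      exact DF.of_primrec h (Primrec.fst.comp (Primrec.fst.comp Primrec.fst))
  have h2 : D 𝓜 fun q : ((α × ℕ) × β) × List β => ∀ i : ℕ, i < q.1.1.2 → ∀ u : β,
      q.2[i]? = some u → q.2[i+1]? = some (g (q.1.1.1, i, u)) := by
    refine D.all (P := fun (q : ((α × ℕ) × β) × List β) (i : ℕ) => i < q.1.1.2 → ∀ u : β,
      q.2[i]? = some u → q.2[i+1]? = some (g (q.1.1.1, i, u))) h ?_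
    refine D.imp h ?_ ?_
    · exact D.of_primrec h (Primrec.nat_lt.comp Primrec.snd
        (Primrec.snd.comp (Primrec.fst.comp (Primrec.fst.comp Primrec.fst))))
    · refine D.all (P := fun (q : (((α × ℕ) × β) × List β) × ℕ) (u : β) =>
        q.1.2[q.2]? = some u → q.1.2[q.2+1]? = some (g (q.1.1.1.1, q.2, u))) h ?_
      refine D.imp h ?_ ?_
      · refine DF.eq h ?_ ?_
        · exact DF.of_primrec h (Primrec.list_getElem?.comp
            (Primrec.snd.comp (Primrec.fst.comp Primrec.fst)) (Primrec.snd.comp Primrec.fst))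
        · exact DF.of_primrec h (Primrec.option_some.comp Primrec.snd)
      · refine DF.eq h ?_ ?_
        · exact DF.of_primrec h (Primrec.list_getElem?.comp
            (Primrec.snd.comp (Primrec.fst.comp Primrec.fst))
            (Primrec.succ.comp (Primrec.snd.comp Primrec.fst)))
        · refine DF.comp h (DF.of_primrec h Primrec.option_some) ?_
          refine DF.comp h (f := fun q : ((((α × ℕ) × β) × List β) × ℕ) × β =>
            (q.1.1.1.1.1, q.1.2, q.2)) hg ?_
          exact DF.of_primrec h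
            ((Primrec.fst.comp (Primrec.fst.comp (Primrec.fst.comp
              (Primrec.fst.comp Primrec.fst)))).pair
              ((Primrec.snd.comp Primrec.fst).pair Primrec.snd))
  have h3 : D 𝓜 fun q : ((α × ℕ) × β) × List β => q.2[q.1.1.2]? = some q.1.2 := by
    refine DF.eq h ?_ ?_
    · exact DF.of_primrec h (Primrec.list_getElem?.comp Primrec.snd
        (Primrec.snd.comp (Primrec.fst.comp Primrec.fst)))
    · exact DF.of_primrec h (Primrec.option_some.comp (Primrec.snd.comp Primrec.fst))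
  refine (D.ex (P := fun (q : (α × ℕ) × β) (l : List β) => l[0]? = some (f q.1.1) ∧
    (∀ i : ℕ, i < q.1.2 → ∀ u : β, l[i]? = some u → l[i+1]? = some (g (q.1.1, i, u))) ∧
      l[q.1.2]? = some q.2) h (D.and h h1 (D.and h h2 h3))).congr fun q => ?_
  obtain ⟨⟨a, n⟩, b⟩ := q
  simp only
  constructor
  · rintro ⟨l, h4, h5, h6⟩
    have := list_rec_unique l (f a) (fun i u => g (a, i, u)) n h4 h5 n le_rfl
    rw [h6] at this
    exact (Option.some.inj this).symm
  · rintro rfl
    refine ⟨(List.range (n+1)).map fun i => (Nat.rec (f a) (fun y ih => g (a, y, ih)) i : β),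
      ?_, ?_, ?_⟩
    · simp
    · intro i hi u hu
      rw [List.getElem?_map, List.getElem?_range (by omega)] at hu
      rw [List.getElem?_map, List.getElem?_range (by omega)]
      simp only [Option.map_some, Option.some.injEq] at hu ⊢
      rw [← hu]
    · rw [List.getElem?_map, List.getElem?_range (by omega)]
      simp

theorem exists_seq (h : Closed 𝓜) {I : List ℕ → Prop} (hI : D 𝓜 I) (h0 : I [])
    (hs : ∀ l, I l → ∃ x, I (l ++ [x])) :
    ∃ a : ℕ → ℕ, DF 𝓜 a ∧ ∀ n, I ((List.range n).map a) := by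
  -- the least extension
  have hstep : DF 𝓜 fun l : List ℕ => sInf {x | I (l ++ [x])} := by
    refine DF.sInf (P := fun (l : List ℕ) x => I (l ++ [x])) h ?_
    exact hI.comp h (Primrec.list_append.comp Primrec.fst
      (Primrec.list_cons.comp Primrec.snd (Primrec.const [])))
  have hnext : DF 𝓜 fun q : Unit × ℕ × List ℕ => q.2.2 ++ [sInf {x | I (q.2.2 ++ [x])}] := by
    have h1 : DF 𝓜 fun q : Unit × ℕ × List ℕ => q.2.2 :=
      DF.of_primrec h (Primrec.snd.comp Primrec.snd)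
    have h2 := DF.pair h h1 (DF.comp h hstep h1)
    exact DF.comp h (g := fun p : List ℕ × ℕ => p.1 ++ [p.2]) (DF.of_primrec h
      (Primrec.list_append.comp Primrec.fst (Primrec.list_cons.comp Primrec.snd
        (Primrec.const [])))) h2
  have hrec := DF.nat_rec (α := Unit) (β := List ℕ) h (f := fun _ => [])
    (DF.of_primrec h (Primrec.const [])) hnext
  set L : ℕ → List ℕ := fun n =>
    (Nat.rec [] (fun _ ih => ih ++ [sInf {x | I (ih ++ [x])}]) n : List ℕ) with hL
  have hLD : DF 𝓜 L := by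
    have := DF.comp (β := Unit × ℕ) h hrec (f := fun n : ℕ => ((), n))
      (DF.of_primrec h ((Primrec.const ()).pair Primrec.id))
    exact this
  refine ⟨fun n => sInf {x | I (L n ++ [x])}, DF.comp h hstep hLD, ?_⟩
  have hLs : ∀ n, L (n+1) = L n ++ [sInf {x | I (L n ++ [x])}] := fun n => rfl
  have hIL : ∀ n, I (L n) := by
    intro n
    induction n with
    | zero => exact h0
    | succ n ih =>
      rw [hLs]
      exact Nat.sInf_mem (s := {x | I (L n ++ [x])}) (hs _ ih)
  have hLe : ∀ n, L n = (List.range n).map fun n => sInf {x | I (L n ++ [x])} := by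
    intro n
    induction n with
    | zero => rfl
    | succ n ih => rw [hLs, List.range_succ, List.map_append, ← ih]; rfl
  intro n
  rw [← hLe]
  exact hIL n

end Pool.Agent.Helper29.OV
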