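import Pool.Agent.Helper29.OV.Defs

/-!
# Closure properties of an omega-model of ACA_0: the internal definitions
-/

namespace Pool.Agent.Helper29.OV

/-- The closure properties of `𝓜` which are used. -/
structure Closed (𝓜 : Set (Set ℕ)) : Prop where
  zero : {0} ∈ 𝓜
  compl : ∀ X ∈ 𝓜, Xᶜ ∈ 𝓜
  inter : ∀ X ∈ 𝓜, ∀ Y ∈ 𝓜, X ∩ Y ∈ 𝓜
  preimage : ∀ X ∈ 𝓜, ∀ g : ℕ → ℕ, Nat.Primrec g → {n | g n ∈ X} ∈ 𝓜
  proj : ∀ X ∈ 𝓜, {n | ∃ k, Nat.pair n k ∈ X} ∈ 𝓜

/-- The predicate `P` on a primitive recursively coded type belongs to `𝓜`. -/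
def D (𝓜 : Set (Set ℕ)) {α : Type} [Primcodable α] (P : α → Prop) : Prop :=
  {n | ∃ a : α, Encodable.decode n = some a ∧ P a} ∈ 𝓜

/-- The function `f` has its graph in `𝓜`. -/
def DF (𝓜 : Set (Set ℕ)) {α β : Type} [Primcodable α] [Primcodable β] (f : α → β) : Prop :=
  D 𝓜 fun p : α × β => f p.1 = p.2

/-- `l` is a strictly increasing list of `K` elements of `H`. -/
def Inc (H : Set ℕ) (K : ℕ) (l : List ℕ) : Prop :=
  l.length = K ∧ l.Pairwise (· < ·) ∧ ∀ x ∈ l, x ∈ H

/-- The least element of `H` which is greater than `p`. -/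
noncomputable def nxt (H : Set ℕ) (p : ℕ) : ℕ := sInf {x | x ∈ H ∧ p < x}

/-- All relation symbols of the formula have index less than `s`, and they are applied to tuples
of length at most `K`. -/
def Form.Bdd {m : ℕ} (s K : ℕ) : Form m → Prop
  | .lt _ _ => True
  | .letter _ _ => True
  | .rel i xs => i < s ∧ xs.length ≤ K
  | .mem _ _ => True
  | .neg φ => φ.Bdd s K
  | .and φ ψ => φ.Bdd s K ∧ ψ.Bdd s K
  | .ex _ φ => φ.Bdd s K
  | .exSet _ φ => φ.Bdd s K

/-- For a template `π` with entries less than `K + 2`, a number `p`, and an increasing list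
`h :: q` with `h, q ⊂ H`, `p ≤ h`, the truth of the relation at the tuple obtained from `π` by
`0 ↦ p`, `1 ↦ h`, `c + 2 ↦ q c` does not depend on the list `q` of `K` elements of `H` above
`h`. -/
def Lim (R : ℕ → Set (List ℕ)) (H : Set ℕ) (s K : ℕ) : Prop :=
  ∀ i < s, ∀ π : List ℕ, π.length ≤ K → (∀ c ∈ π, c < K + 2) → ∀ h ∈ H, ∀ p ≤ h,
    ∀ q q' : List ℕ, Inc (H ∩ {x | h < x}) K q → Inc (H ∩ {x | h < x}) K q' →
      ((π.map fun c => (p :: h :: q).getD c 0) ∈ R i ↔
        (π.map fun c => (p :: h :: q').getD c 0) ∈ R i)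

/-- The truth of `R i` at constant tuples from `H` does not depend on the element of `H`. -/
def Rep (R : ℕ → Set (List ℕ)) (H : Set ℕ) (s K : ℕ) : Prop :=
  ∀ i < s, ∀ k ≤ K, (∀ L ∈ H, List.replicate k L ∈ R i) ∨ (∀ L ∈ H, List.replicate k L ∉ R i)

/-- The labels of the positions. -/
abbrev Lab (s K : ℕ) : Type := Prop × (Fin s → Fin (K + 1) → (Fin K → Fin (K + 2)) → Prop)

/-- The label of the position `p`: whether it belongs to `H`, and the truth of the relations at
the tuples with entries `p, nxt H p, nxt H (nxt H p), ...`. -/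
noncomputable def labOf (R : ℕ → Set (List ℕ)) (H : Set ℕ) (s K : ℕ) (p : ℕ) : Lab s K :=
  (p ∈ H, fun i k π => (((List.ofFn π).take k).map fun c => (nxt H)^[(c : ℕ)] p) ∈ R i)

/-- The words of labelled symbols to which `BU2` applies: the labels are those of the positions,
all symbols different from `a₀` are at positions in `H`, and the length belongs to `H`. -/
def GoodW {m : ℕ} (a₀ : Fin m) (R : ℕ → Set (List ℕ)) (H : Set ℕ) (s K : ℕ)
    (b : List (Sym m × Lab s K)) : Prop :=
  b.length ∈ H ∧ ∀ p c, b[p]? = some c → c.2 = labOf R H s K p ∧ (c.1 ≠ Sum.inl a₀ → p ∈ H)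

/-! ### Recognisable sets of words over arbitrary alphabets -/

/-- A set of words (over an arbitrary alphabet) which is recognised by a finite monoid. -/
def Rec {C : Type} (L : List C → Prop) : Prop :=
  ∃ (M : Type) (_ : Monoid M) (_ : Finite M) (μ : C → M) (T : Set M),
    ∀ u, L u ↔ (u.map μ).prod ∈ T

/-- A cell carries a base symbol and marks: `fo x` says that the number variable `x` marks this
cell, and `so Y` says that this cell belongs to the set `Y`. -/
structure Cell (B : Type) : Type where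
  base : B
  fo : ℕ → Prop
  so : ℕ → Prop

open Classical in
/-- The value of the number variable `x` in a word of cells: the first cell which is marked by
`x`, or the length of the word. -/
noncomputable def foVal {B : Type} (u : List (Cell B)) (x : ℕ) : ℕ :=
  u.findIdx fun c => decide (c.fo x)

/-- The value of the set variable `Y` in a word of cells. -/
def soVal {B : Type} (u : List (Cell B)) (Y : ℕ) : Set ℕ :=
  {p | ∃ c, u[p]? = some c ∧ c.so Y}

/-! ### The universal words -/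

/-- Replace the letter `b` by the variable `x_j`. -/
def ren (b j : ℕ) : ℕ ⊕ ℕ → ℕ ⊕ ℕ
  | Sum.inl c => if c = b then Sum.inr j else Sum.inl c
  | Sum.inr i => Sum.inr i

/-- The words `V(r, b, j)`: over the letters `inl c`, `c < b`, and the variables `inr i`,
`i < j`. -/
def V (N : ℕ) (κ : ℕ → List (ℕ ⊕ ℕ)) : ℕ → ℕ → ℕ → List (ℕ ⊕ ℕ)
  | 0 => fun b _ => κ b
  | r + 1 => fun b j => Nat.rec (κ b) (fun j Vj =>
      (List.replicate N (Vj ++ [Sum.inr j] ++ (V N κ r (b + 1) j).map (ren b j) ++ Vj)).flatten) j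

/-- `v` is an `s`-variable word over the letters `inl c`, `c < b`. -/
structure VW (b s : ℕ) (v : List (ℕ ⊕ ℕ)) : Prop where
  letters : ∀ c : ℕ, Sum.inl c ∈ v → c < b
  bound : ∀ i : ℕ, Sum.inr i ∈ v → i < s
  occurs : ∀ i : ℕ, i < s → Sum.inr i ∈ v
  order : ∀ i p : ℕ, v[p]? = some (Sum.inr (i + 1)) → ∃ q, q < p ∧ v[q]? = some (Sum.inr i)

/-- Substitution of `v` into a finite word. -/
def sub (v u : List (ℕ ⊕ ℕ)) : List (ℕ ⊕ ℕ) :=
  u.map fun | Sum.inl c => Sum.inl c
            | Sum.inr i => v.getD i (Sum.inr i)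

/-- The submonoid generated by the letters `inl c`, `c < b`, and the variables `inr i`,
`i < s`. -/
def Sgen {M : Type} [Monoid M] (μ : ℕ ⊕ ℕ → M) (b s : ℕ) : Submonoid M :=
  Submonoid.closure ({x | ∃ c, c < b ∧ μ (Sum.inl c) = x} ∪ {x | ∃ i, i < s ∧ μ (Sum.inr i) = x})

/-- `e` is an idempotent in the minimal ideal of the submonoid `S`. -/
def MinIdem {M : Type} [Monoid M] (S : Submonoid M) (e : M) : Prop :=
  e ∈ S ∧ e * e = e ∧ ∀ x ∈ S, ∃ y ∈ S, ∃ z ∈ S, y * x * z = e

/-- `κ b` is a word over the letters `inl c`, `c < b`, whose value is an idempotent of the minimal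
ideal, for every substitution into `M`. -/
def Kap (M : Type) [Monoid M] (κ : ℕ → List (ℕ ⊕ ℕ)) : Prop :=
  ∀ b, (∀ x ∈ κ b, ∃ c, c < b ∧ x = Sum.inl c) ∧
    ∀ μ : ℕ ⊕ ℕ → M, MinIdem (Sgen μ b 0) ((κ b).map μ).prod

end Pool.Agent.Helper29.OV
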