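import Pool.Agent.Helper29.OV.Api
import Pool.Agent.Helper14.OV.JOC
import Pool.Agent.Helper41.OV.UWA
import Pool.Agent.Helper12.OV.UWK

/-!
# The proved packets JOC, UWA, UWK under their names in the goal file
-/

namespace Pool.Agent.Helper29.OV

theorem ramsey {𝓜 : Set (Set ℕ)} (h : Closed 𝓜) (K : ℕ) (H₀ : Set ℕ) (h₀ : H₀ ∈ 𝓜)
    (hi : H₀.Infinite) (P : List ℕ → Prop) (hP : D 𝓜 P) :
    ∃ H ⊆ H₀, H ∈ 𝓜 ∧ H.Infinite ∧ ((∀ l, Inc H K l → P l) ∨ (∀ l, Inc H K l → ¬ P l)) :=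
  Pool.Agent.Helper14.OV.ramsey h K H₀ h₀ hi P hP

theorem V_const {M : Type} [Monoid M] [Finite M] (N : ℕ) (hN : 0 < N)
    (hid : ∀ x : M, x ^ N * x ^ N = x ^ N) (κ : ℕ → List (ℕ ⊕ ℕ)) (hκ : Kap M κ) (r b : ℕ)
    (μ : ℕ ⊕ ℕ → M) :
    ∃ e : ℕ → M, ∀ s ≤ r, MinIdem (Sgen μ b s) (e s) ∧ ∀ v : List (ℕ ⊕ ℕ), VW b s v →
      ((sub v (V N κ r b v.length)).map μ).prod = e s :=
  Pool.Agent.Helper41.OV.V_const N hN hid κ hκ r b μ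

theorem exists_kap (M : Type) [Monoid M] [Finite M] :
    ∃ N : ℕ, 0 < N ∧ (∀ x : M, x ^ N * x ^ N = x ^ N) ∧ ∃ κ : ℕ → List (ℕ ⊕ ℕ), Kap M κ :=
  Pool.Agent.Helper12.OV.exists_kap M

end Pool.Agent.Helper29.OV
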