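import Pool.Agent.Helper29.OV.Base1
import Pool.Agent.Helper23.OV.ARC
import Pool.Agent.Helper36.OV.LIM
import Pool.Agent.Helper13.OV.GAP
import Pool.Agent.Helper86.OV.BU1
import Pool.Agent.Helper24.OV.BU2
import Pool.Agent.Helper74.OV.UWP

/-!
# The other proved packets under their names in the goal file
-/

namespace Pool.Agent.Helper29.OV

theorem closed_of_aca {𝓜 : Set (Set ℕ)} (h : IsOmegaModelACA 𝓜) : Closed 𝓜 :=
  Pool.Agent.Helper23.OV.closed_of_aca h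

theorem exists_lim {𝓜 : Set (Set ℕ)} (h : Closed 𝓜) (R : ℕ → Set (List ℕ))
    (hR : ∀ i, D 𝓜 fun l : List ℕ => l ∈ R i) (s K : ℕ) :
    ∃ H : Set ℕ, H ∈ 𝓜 ∧ H.Infinite ∧ Lim R H s K ∧ Rep R H s K :=
  Pool.Agent.Helper36.OV.exists_lim h R hR s K

theorem exists_gap {𝓜 : Set (Set ℕ)} (h : Closed 𝓜) (H₀ : Set ℕ) (h₀ : H₀ ∈ 𝓜)
    (hi : H₀.Infinite) {Λ : Type} [Finite Λ] (lab : ℕ → Λ) (hlab : ∀ c, D 𝓜 fun p : ℕ => lab p = c)
    {M : Type} [Monoid M] [Finite M] (ν : Λ → M) :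
    ∃ H ⊆ H₀, H ∈ 𝓜 ∧ H.Infinite ∧ (∃ c, ∀ p ∈ H, lab p = c) ∧ ∃ g : M, ∀ x ∈ H, ∀ y ∈ H, x < y →
      ((List.range (y - x - 1)).map fun t => ν (lab (x + 1 + t))).prod = g :=
  Pool.Agent.Helper13.OV.exists_gap h H₀ h₀ hi lab hlab ν

theorem bu1 {m : ℕ} (a₀ : Fin m) (R : ℕ → Set (List ℕ)) {B : Type} (sym : B → Sym m)
    (Good : List B → Prop) (s K : ℕ)
    (hrel : ∀ i < s, ∀ xs : List ℕ, xs.length ≤ K → ∃ L : List (Cell B) → Prop, Rec L ∧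
      ∀ u, Good (u.map Cell.base) → (L u ↔
        ((∀ x ∈ xs, (u.map fun c => sym c.base)[foVal u x]? = some (Sum.inl a₀) →
          ∀ y ∈ xs, foVal u x ≤ foVal u y) ∧ xs.map (foVal u) ∈ R i)))
    (φ : Form m) (hφ : φ.Bdd s K) :
    ∃ L : List (Cell B) → Prop, Rec L ∧ ∀ u, Good (u.map Cell.base) →
      (L u ↔ Holds a₀ R (u.map fun c => sym c.base) (foVal u) (soVal u) φ) :=
  Pool.Agent.Helper86.OV.bu1 a₀ R sym Good s K hrel φ hφ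

theorem bu2 {m : ℕ} (a₀ : Fin m) (R : ℕ → Set (List ℕ)) (H : Set ℕ) (hH : H.Infinite) (s K : ℕ)
    (hlim : Lim R H s K) (hrep : Rep R H s K) (i : ℕ) (hi : i < s) (xs : List ℕ)
    (hxs : xs.length ≤ K) :
    ∃ L : List (Cell (Sym m × Lab s K)) → Prop, Rec L ∧
      ∀ u, GoodW a₀ R H s K (u.map Cell.base) → (L u ↔
        ((∀ x ∈ xs, (u.map fun c => c.base.1)[foVal u x]? = some (Sum.inl a₀) →
          ∀ y ∈ xs, foVal u x ≤ foVal u y) ∧ xs.map (foVal u) ∈ R i)) :=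
  Pool.Agent.Helper24.OV.bu2 a₀ R H hH s K hlim hrep i hi xs hxs

theorem universal {M : Type} [Monoid M] [Finite M] {m : ℕ} (a₀ : Fin m) (n : ℕ) :
    ∃ W : ℕ → Sym m, IsOmegaWord W ∧ Primrec W ∧ ∀ μ : Sym m → M, ∃ e : M,
      ∀ v, IsVarWord n v → ((subst W v).map μ).prod = e :=
  Pool.Agent.Helper74.OV.universal a₀ n

end Pool.Agent.Helper29.OV
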