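import Pool.Agent.Helper29.OV.Base2

/-!
# Sentences on words with support in an indiscernible set
-/

namespace Pool.Agent.Helper29.OV

theorem map_range_getD {α : Type} (w : List α) (d : α) :
    ((List.range w.length).map fun p => w.getD p d) = w := by
  apply List.ext_getElem
  · simp
  · intro i h1 h2
    simp [List.getElem?_eq_getElem h2]

theorem buchi {m : ℕ} (a₀ : Fin m) (R : ℕ → Set (List ℕ)) (H : Set ℕ) (hH : H.Infinite) (s K : ℕ)
    (hlim : Lim R H s K) (hrep : Rep R H s K) (φ : Form m) (hφ : φ.Bdd s K) :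
    ∃ (M : Type) (_ : Monoid M) (_ : Finite M) (ν : Sym m → Lab s K → M) (T : Set M),
      ∀ w : List (Sym m), (∀ p sy, w[p]? = some sy → sy ≠ Sum.inl a₀ → p ∈ H) → w.length ∈ H →
        (Models a₀ R w φ ↔ ((List.range w.length).map fun p =>
          ν (w.getD p (Sum.inl a₀)) (labOf R H s K p)).prod ∈ T) := by
  obtain ⟨L, ⟨M, iM, fM, μ, T, hμ⟩, hL⟩ := bu1 a₀ R (B := Sym m × Lab s K) Prod.fst
    (GoodW a₀ R H s K) s K (fun i hi xs hxs => bu2 a₀ R H hH s K hlim hrep i hi xs hxs) φ hφ
  refine ⟨M, iM, fM, fun sy la => μ ⟨(sy, la), fun _ => False, fun _ => False⟩, T, ?_⟩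
  intro w hw hlen
  set u : List (Cell (Sym m × Lab s K)) := (List.range w.length).map fun p =>
    (⟨(w.getD p (Sum.inl a₀), labOf R H s K p), fun _ => False, fun _ => False⟩ :
      Cell (Sym m × Lab s K)) with hu
  have hul : u.length = w.length := by simp [hu]
  have hfo : foVal u = fun _ => w.length := by
    funext x
    rw [← hul]
    unfold foVal
    rw [List.findIdx_eq_length]
    intro c hc
    rw [hu, List.mem_map] at hc
    obtain ⟨p, _, rfl⟩ := hc
    simp
  have hso : soVal u = fun _ => ∅ := by
    funext Y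
    unfold soVal
    ext p
    simp only [Set.mem_ofPred_eq, Set.mem_empty_iff_false, iff_false, not_exists, not_and]
    intro c hc
    have hc' := List.mem_of_getElem? hc
    rw [hu, List.mem_map] at hc'
    obtain ⟨q, _, rfl⟩ := hc'
    simp
  have hsym : (u.map fun c => c.base.1) = w := by
    rw [hu, List.map_map]
    exact map_range_getD w (Sum.inl a₀)
  have hgood : GoodW a₀ R H s K (u.map Cell.base) := by
    refine ⟨by simpa [hul] using hlen, ?_⟩
    intro p c hc
    rw [hu, List.map_map, List.getElem?_map] at hc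
    by_cases hp : p < w.length
    · rw [List.getElem?_range hp] at hc
      simp only [Option.map_some, Function.comp_apply, Option.some.injEq] at hc
      subst hc
      refine ⟨rfl, fun h1 => hw p (w.getD p (Sum.inl a₀)) ?_ h1⟩
      simp [hp]
    · rw [List.getElem?_eq_none (by simpa using hp)] at hc
      simp at hc
  have h1 := hL u hgood
  rw [hμ, hfo, hso] at h1
  unfold Models
  have h2 : (u.map fun c => Prod.fst c.base) = w := hsym
  rw [h2] at h1
  rw [← h1, hu, List.map_map]
  rfl

end Pool.Agent.Helper29.OV
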