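import Pool.Agent.Helper29.OV.LAB

/-!
# Substitution, spreading of a word along an infinite set, products
-/

namespace Pool.Agent.Helper29.OV

variable {m : ℕ}

/-! ### Omega-variable words -/

theorem IsOmegaWord.earlier {W : ℕ → Sym m} (hW : IsOmegaWord W) {i j p : ℕ}
    (hp : W p = Sum.inr j) (hij : i ≤ j) : ∃ q ≤ p, W q = Sum.inr i := by
  induction j generalizing p with
  | zero =>
    obtain rfl : i = 0 := by omega
    exact ⟨p, le_rfl, hp⟩
  | succ j ih =>
    rcases Nat.lt_or_ge j i with h1 | h1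
    · obtain rfl : i = j + 1 := by omega
      exact ⟨p, le_rfl, hp⟩
    · obtain ⟨q, hq, hq'⟩ := hW.order j p hp
      obtain ⟨q', h2, h3⟩ := ih hq' h1
      exact ⟨q', by omega, h3⟩

/-- The place of the first occurrence of the variable `x_j`. -/
noncomputable def first (W : ℕ → Sym m) (j : ℕ) : ℕ := sInf {p | W p = Sum.inr j}

theorem IsOmegaWord.first_spec {W : ℕ → Sym m} (hW : IsOmegaWord W) (j : ℕ) :
    W (first W j) = Sum.inr j :=
  Nat.sInf_mem (s := {p | W p = Sum.inr j}) (hW.occurs j)

theorem first_le {W : ℕ → Sym m} {j p : ℕ} (h : W p = Sum.inr j) : first W j ≤ p :=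
  Nat.sInf_le h

theorem IsOmegaWord.lt_of_lt_first {W : ℕ → Sym m} (hW : IsOmegaWord W) {j k p : ℕ}
    (hp : p < first W k) (h : W p = Sum.inr j) : j < k := by
  by_contra hk
  push Not at hk
  obtain ⟨q, hq, hq'⟩ := hW.earlier h hk
  have := first_le hq'
  omega

theorem IsOmegaWord.first_lt {W : ℕ → Sym m} (hW : IsOmegaWord W) {i j : ℕ} (h : i < j) :
    first W i < first W j := by
  obtain ⟨q, hq, hq'⟩ := hW.earlier (hW.first_spec j) h.le
  refine lt_of_le_of_ne ((first_le hq').trans hq) fun he => ?_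
  have h1 := hW.first_spec i
  rw [he, hW.first_spec j] at h1
  have := Sum.inr.inj h1
  omega

theorem subst_length (W : ℕ → Sym m) (v : List (Sym m)) :
    (subst W v).length = first W v.length := by
  simp [subst, first]

theorem subst_eq (W : ℕ → Sym m) (v : List (Sym m)) :
    subst W v = (List.range (first W v.length)).map fun p => substSym v (W p) := rfl

theorem subst_getElem? (W : ℕ → Sym m) (v : List (Sym m)) (p : ℕ) (hp : p < first W v.length) :
    (subst W v)[p]? = some (substSym v (W p)) := by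
  rw [subst_eq, List.getElem?_map, List.getElem?_range hp]
  rfl

theorem isVarWord_subst {W : ℕ → Sym m} (hW : IsOmegaWord W) {n : ℕ} {v : List (Sym m)}
    (hv : IsVarWord n v) : IsVarWord n (subst W v) := by
  -- the symbol at a position
  have key : ∀ p i, (subst W v)[p]? = some (Sum.inr i) → p < first W v.length ∧
      ∃ j, W p = Sum.inr j ∧ v[j]? = some (Sum.inr i) := by
    intro p i hp
    have hlt : p < first W v.length := by
      by_contra hge
      rw [List.getElem?_eq_none (by rw [subst_length]; omega)] at hp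
      cases hp
    refine ⟨hlt, ?_⟩
    rw [subst_getElem? W v p hlt] at hp
    rcases hWp : W p with a | j
    · rw [hWp] at hp
      simp [substSym] at hp
    · rw [hWp] at hp
      have hj := hW.lt_of_lt_first hlt hWp
      refine ⟨j, rfl, ?_⟩
      simp only [substSym, Option.some.injEq] at hp
      rw [List.getD_eq_getElem _ _ hj] at hp
      rw [List.getElem?_eq_getElem hj, hp]
  refine ⟨?_, ?_, ?_⟩
  · intro i hi
    obtain ⟨p, hp⟩ := List.mem_iff_getElem?.1 hi
    obtain ⟨_, j, _, hj⟩ := key p i hp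
    exact hv.bound i (List.mem_of_getElem? hj)
  · intro i hi
    obtain ⟨j, hj⟩ := List.mem_iff_getElem?.1 (hv.occurs i hi)
    have hjl : j < v.length := by
      by_contra hge
      rw [List.getElem?_eq_none (by omega)] at hj
      cases hj
    have h1 := hW.first_lt hjl
    have h2 := subst_getElem? W v _ h1
    rw [hW.first_spec j] at h2
    have h3 : substSym v (Sum.inr j) = Sum.inr i := by
      simp only [substSym]
      rw [List.getD_eq_getElem _ _ hjl]
      rw [List.getElem?_eq_getElem hjl] at hj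
      exact Option.some.inj hj
    rw [h3] at h2
    exact List.mem_of_getElem? h2
  · intro i p hp
    obtain ⟨hlt, j, hj, hvj⟩ := key p (i+1) hp
    obtain ⟨j', hj', hvj'⟩ := hv.order i j hvj
    obtain ⟨q, hq, hWq⟩ := hW.earlier hj hj'.le
    have hqp : q < p := by
      refine lt_of_le_of_ne hq fun he => ?_
      rw [he, hj] at hWq
      have := Sum.inr.inj hWq
      omega
    refine ⟨q, hqp, ?_⟩
    rw [subst_getElem? W v q (by omega), hWq]
    have hjl : j' < v.length := by
      by_contra hge
      rw [List.getElem?_eq_none (by omega)] at hvj'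
      cases hvj'
    simp only [substSym]
    rw [List.getD_eq_getElem _ _ hjl]
    rwa [List.getElem?_eq_getElem hjl] at hvj'

/-! ### Spreading -/

open Classical in
/-- The word `U` spread along `H`, the other positions carry `a₀`. -/
noncomputable def spread (a₀ : Fin m) (H : Set ℕ) (U : ℕ → Sym m) (p : ℕ) : Sym m :=
  if p ∈ H then U (Nat.count (· ∈ H) p) else Sum.inl a₀

theorem nth_mem {H : Set ℕ} (hH : H.Infinite) (q : ℕ) : Nat.nth (· ∈ H) q ∈ H :=
  Nat.nth_mem_of_infinite hH q

theorem nth_mono {H : Set ℕ} (hH : H.Infinite) : StrictMono (Nat.nth (· ∈ H)) :=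
  Nat.nth_strictMono hH

variable (a₀ : Fin m) {H : Set ℕ} (hH : H.Infinite) (U : ℕ → Sym m)

include hH in
theorem spread_nth (q : ℕ) : spread a₀ H U (Nat.nth (· ∈ H) q) = U q := by
  classical
  have h1 : Nat.nth (· ∈ H) q ∈ H := nth_mem hH q
  unfold spread
  rw [if_pos h1]
  congr 1
  exact Nat.count_nth_of_infinite hH q

theorem spread_notMem {p : ℕ} (hp : p ∉ H) : spread a₀ H U p = Sum.inl a₀ := by
  classical
  unfold spread
  rw [if_neg hp]

theorem exists_nth {p : ℕ} (hp : p ∈ H) : ∃ q, Nat.nth (· ∈ H) q = p := by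
  classical
  exact ⟨_, Nat.nth_count hp⟩

theorem mem_of_spread {p j : ℕ} (hp : spread a₀ H U p = Sum.inr j) : p ∈ H := by
  by_contra h
  rw [spread_notMem a₀ U h] at hp
  cases hp

include hH in
theorem spread_omega (hU : IsOmegaWord U) : IsOmegaWord (spread a₀ H U) := by
  refine ⟨fun i => ?_, fun i p hp => ?_⟩
  · obtain ⟨q, hq⟩ := hU.occurs i
    exact ⟨_, by rw [spread_nth a₀ hH U q, hq]⟩
  · obtain ⟨q, rfl⟩ := exists_nth (mem_of_spread a₀ U hp)
    rw [spread_nth a₀ hH U q] at hp
    obtain ⟨q', h1, h2⟩ := hU.order i q hp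
    exact ⟨_, nth_mono hH h1, by rw [spread_nth a₀ hH U q', h2]⟩

include hH in
theorem first_spread (hU : IsOmegaWord U) (j : ℕ) :
    first (spread a₀ H U) j = Nat.nth (· ∈ H) (first U j) := by
  apply le_antisymm
  · apply first_le
    rw [spread_nth a₀ hH U, hU.first_spec]
  · have h1 := (spread_omega a₀ hH U hU).first_spec j
    obtain ⟨q, hq⟩ := exists_nth (mem_of_spread a₀ U h1)
    rw [← hq] at h1 ⊢
    rw [spread_nth a₀ hH U] at h1
    exact (Nat.nth_le_nth hH).2 (first_le h1)

/-- The product over the positions of a word with symbols `f p` which is `spread`. -/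
theorem prod_spread {M : Type} [Monoid M] {Λ : Type} (lab : ℕ → Λ) (ν : Sym m → Λ → M)
    (hH : H.Infinite) (c : Λ) (hc : ∀ p ∈ H, lab p = c) (g : M)
    (hg : ∀ x ∈ H, ∀ y ∈ H, x < y →
      ((List.range (y - x - 1)).map fun t => ν (Sum.inl a₀) (lab (x + 1 + t))).prod = g)
    (v : List (Sym m)) (K : ℕ) :
    ((List.range (Nat.nth (· ∈ H) K)).map fun p =>
      ν (substSym v (spread a₀ H U p)) (lab p)).prod =
    ((List.range (Nat.nth (· ∈ H) 0)).map fun p => ν (Sum.inl a₀) (lab p)).prod *
      ((List.range K).map fun q => ν (substSym v (U q)) c * g).prod := by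
  induction K with
  | zero =>
    simp only [List.range_zero, List.map_nil, List.prod_nil, mul_one]
    congr 1
    apply List.map_congr_left
    intro p hp
    rw [List.mem_range] at hp
    have : p ∉ H := fun h => by
      obtain ⟨q, rfl⟩ := exists_nth h
      have := (Nat.nth_lt_nth hH).1 hp
      omega
    rw [spread_notMem a₀ U this]
    rfl
  | succ K ih =>
    have hlt : Nat.nth (· ∈ H) K < Nat.nth (· ∈ H) (K+1) := nth_mono hH (by omega)
    have hsplit : Nat.nth (· ∈ H) (K+1) = (Nat.nth (· ∈ H) K + 1) +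
        (Nat.nth (· ∈ H) (K+1) - Nat.nth (· ∈ H) K - 1) := by omega
    rw [hsplit, List.range_add, List.map_append, List.prod_append, List.range_succ,
      List.map_append, List.prod_append, ih, List.map_map]
    have h1 : (List.map (fun p => ν (substSym v (spread a₀ H U p)) (lab p))
        [Nat.nth (· ∈ H) K]).prod = ν (substSym v (U K)) c := by
      simp only [List.map_cons, List.map_nil, List.prod_singleton]
      rw [spread_nth a₀ hH U, hc _ (nth_mem hH K)]
    have h2 : (List.map ((fun p => ν (substSym v (spread a₀ H U p)) (lab p)) ∘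
        fun t => Nat.nth (· ∈ H) K + 1 + t)
        (List.range (Nat.nth (· ∈ H) (K+1) - Nat.nth (· ∈ H) K - 1))).prod = g := by
      rw [← hg _ (nth_mem hH K) _ (nth_mem hH (K+1)) hlt]
      congr 1
      apply List.map_congr_left
      intro t ht
      rw [List.mem_range] at ht
      simp only [Function.comp_apply]
      have : Nat.nth (· ∈ H) K + 1 + t ∉ H := fun h => by
        obtain ⟨q, hq⟩ := exists_nth h
        have h3 : Nat.nth (· ∈ H) K < Nat.nth (· ∈ H) q := by omega
        have h4 : Nat.nth (· ∈ H) q < Nat.nth (· ∈ H) (K+1) := by omega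
        have := (Nat.nth_lt_nth hH).1 h3
        have := (Nat.nth_lt_nth hH).1 h4
        omega
      rw [spread_notMem a₀ U this]
      rfl
    rw [h1, h2, List.range_succ, List.map_append, List.prod_append]
    simp only [List.map_cons, List.map_nil, List.prod_singleton, mul_assoc]

/-! ### Definability of the spread word -/

theorem count_def {𝓜 : Set (Set ℕ)} (h : Closed 𝓜) {H : Set ℕ} (hH : H ∈ 𝓜)
    [DecidablePred (· ∈ H)] : DF 𝓜 fun p => Nat.count (· ∈ H) p := by
  have hg : DF 𝓜 fun q : Unit × ℕ × ℕ => if q.2.1 ∈ H then q.2.2 + 1 else q.2.2 := by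
    refine DF.ite (P := fun q : Unit × ℕ × ℕ => q.2.1 ∈ H) h ?_ ?_ ?_
    · exact D.comp h (D.mem_set hH) (Primrec.fst.comp Primrec.snd)
    · exact DF.of_primrec h (Primrec.succ.comp (Primrec.snd.comp Primrec.snd))
    · exact DF.of_primrec h (Primrec.snd.comp Primrec.snd)
  have h1 := DF.nat_rec (α := Unit) (β := ℕ) h (f := fun _ => 0)
    (DF.of_primrec h (Primrec.const 0)) hg
  have h2 := DF.comp (β := Unit × ℕ) h h1 (f := fun n : ℕ => ((), n))
      (DF.of_primrec h ((Primrec.const ()).pair Primrec.id))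
  have h3 : (fun a : ℕ => (Nat.rec 0 (fun y ih => if y ∈ H then ih + 1 else ih) a : ℕ)) =
      fun p => Nat.count (· ∈ H) p := by
    funext p
    induction p with
    | zero => simp
    | succ p ih =>
      rw [Nat.count_succ, ← ih]
      by_cases hp : p ∈ H <;> simp [hp]
  rw [← h3]
  exact h2

theorem spread_def {𝓜 : Set (Set ℕ)} (h : Closed 𝓜) {H : Set ℕ} (hH : H ∈ 𝓜)
    {U : ℕ → Sym m} (hU : Primrec U) : DF 𝓜 (spread a₀ H U) := by
  classical
  have h1 : DF 𝓜 fun p => if p ∈ H then U (Nat.count (· ∈ H) p) else Sum.inl a₀ := by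
    refine DF.ite h (D.mem_set hH) ?_ ?_
    · exact DF.comp h (DF.of_primrec h hU) (count_def h hH)
    · exact DF.of_primrec h (Primrec.const _)
  exact h1

theorem graph_mem {𝓜 : Set (Set ℕ)} (h : Closed 𝓜) {W : ℕ → Sym m} (hW : DF 𝓜 W) :
    {k | ∃ p, k = Nat.pair p (Encodable.encode (W p))} ∈ 𝓜 := by
  have h1 : DF 𝓜 fun p : ℕ => Nat.pair p (Encodable.encode (W p)) :=
    DF.comp h (g := fun q : ℕ × Sym m => Nat.pair q.1 (Encodable.encode q.2))
      (DF.of_primrec h (Primrec₂.natPair.comp Primrec.fst (Primrec.encode.comp Primrec.snd)))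
      (DF.pair h (DF.of_primrec h Primrec.id) hW)
  refine D.nat_iff.1 (D.ex (P := fun k p : ℕ => k = Nat.pair p (Encodable.encode (W p))) h ?_)
  exact DF.eq h (DF.of_primrec h Primrec.fst)
    (DF.comp h h1 (DF.of_primrec h Primrec.snd))

end Pool.Agent.Helper29.OV
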