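import Pool.Agent.Helper29.OV.Stmt
import Pool.Agent.Helper29.OV.Word

/-!
# First order sentences with unrestricted binary advice define enough colourings
-/

namespace Pool.Agent.Helper29.OV

open Encodable

/-! ### The code of a word -/

theorem encode_list_mono : ∀ (l l' : List ℕ), l.length = l'.length →
    (∀ q x y : ℕ, l[q]? = some x → l'[q]? = some y → x ≤ y) → encode l ≤ encode l'
  | [], [], _, _ => le_rfl
  | a :: l, b :: l', h, hp => by
    have h1 : encode l ≤ encode l' := encode_list_mono l l' (by simpa using h)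
      fun q x y hx hy => hp (q+1) x y (by simpa using hx) (by simpa using hy)
    have h2 : a ≤ b := hp 0 a b (by simp) (by simp)
    rw [encode_list_cons, encode_list_cons]
    apply Nat.succ_le_succ
    have h3 : Nat.pair a (encode l) ≤ Nat.pair b (encode l) := by
      rcases h2.lt_or_eq with h4 | h4
      · exact (Nat.pair_lt_pair_left _ h4).le
      · rw [h4]
    have h4 : Nat.pair b (encode l) ≤ Nat.pair b (encode l') := by
      rcases h1.lt_or_eq with h5 | h5
      · exact (Nat.pair_lt_pair_right _ h5).le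
      · rw [h5]
    exact h3.trans h4

variable {m : ℕ}

/-- The digit of a symbol; the digit of `a₀` is `0`. -/
def dig (a₀ : Fin m) (s : Sym m) : ℕ := if s = Sum.inl a₀ then 0 else encode s + 1

theorem dig_inj (a₀ : Fin m) : Function.Injective (dig a₀) := by
  intro s t h
  unfold dig at h
  by_cases h1 : s = Sum.inl a₀ <;> by_cases h2 : t = Sum.inl a₀
  · rw [h1, h2]
  · simp [h1, h2] at h
  · simp [h1, h2] at h
  · simp only [h1, h2, if_false] at h
    exact encode_injective (by omega)

theorem dig_a₀ (a₀ : Fin m) : dig a₀ (Sum.inl a₀) = 0 := by simp [dig]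

theorem dig_primrec (a₀ : Fin m) : Primrec (dig a₀) :=
  Primrec.ite (Primrec.eq.comp Primrec.id (Primrec.const _)) (Primrec.const 0)
    (Primrec.succ.comp Primrec.encode)

/-- The code of a word. -/
def cod (a₀ : Fin m) (u : List (Sym m)) : ℕ := encode (u.map (dig a₀))

theorem cod_inj (a₀ : Fin m) : Function.Injective (cod a₀) := by
  intro u v h
  exact (List.map_injective_iff.2 (dig_inj a₀)) (encode_injective h)

theorem cod_primrec (a₀ : Fin m) : Primrec (cod a₀) :=
  Primrec.encode.comp (Primrec.list_map Primrec.id ((dig_primrec a₀).comp Primrec.snd))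

/-! ### The advice relations -/

/-- Names of the advice relations. -/
abbrev Name (m ℓ : ℕ) : Type := Unit ⊕ (Sym m ⊕ Fin ℓ)

/-- The advice relations: the length of the coded word, its symbols, and its colour. -/
def rels {ℓ : ℕ} (a₀ : Fin m) (f : List (Sym m) → Fin ℓ) : Name m ℓ → Set (List ℕ)
  | Sum.inl () => {l | ∃ t : List ℕ, l = [encode t, t.length]}
  | Sum.inr (Sum.inl s) => {l | ∃ (t : List ℕ) (q : ℕ), l = [encode t, q] ∧ t[q]? = some (dig a₀ s)}
  | Sum.inr (Sum.inr c) => {l | ∃ u, l = [cod a₀ u] ∧ f u = c}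

/-- The advice. -/
def adv {ℓ : ℕ} (a₀ : Fin m) (f : List (Sym m) → Fin ℓ) (i : ℕ) : Set (List ℕ) :=
  match (decode i : Option (Name m ℓ)) with
  | some x => rels a₀ f x
  | none => ∅

theorem adv_encode {ℓ : ℕ} (a₀ : Fin m) (f : List (Sym m) → Fin ℓ) (x : Name m ℓ) :
    adv a₀ f (encode x) = rels a₀ f x := by
  unfold adv
  rw [encodek]

theorem colouring_def {ℓ : ℕ} {𝓜 : Set (Set ℕ)} (h : Closed 𝓜) {f : List (Sym m) → Fin ℓ}
    (hf : ColouringIn 𝓜 f) : DF 𝓜 f := by
  have h1 : Primrec fun q : List (Sym m) × Fin ℓ => Nat.pair (encode q.1) (q.2 : ℕ) :=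
    Primrec₂.natPair.comp (Primrec.encode.comp Primrec.fst) (Primrec.fin_val.comp Primrec.snd)
  refine (D.comp h (D.nat_iff.2 hf) h1).congr fun q => ?_
  constructor
  · rintro ⟨w, hw⟩
    obtain ⟨h2, h3⟩ := Nat.pair_eq_pair.1 hw
    rw [encode_injective h2]
    exact (Fin.ext h3).symm
  · intro h2
    exact ⟨q.1, by rw [h2]⟩

theorem adviceIn_adv {ℓ : ℕ} {𝓜 : Set (Set ℕ)} (h : Closed 𝓜) (a₀ : Fin m)
    {f : List (Sym m) → Fin ℓ} (hf : ColouringIn 𝓜 f) : AdviceIn 𝓜 (adv a₀ f) := by
  have key : ∀ x : Name m ℓ, D 𝓜 fun l : List ℕ => l ∈ rels a₀ f x := by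
    intro x
    rcases x with ⟨⟨⟩⟩ | s | c
    · refine D.ex (P := fun (l t : List ℕ) => l = [encode t, t.length]) h ?_
      refine D.of_primrec h (Primrec.eq.comp Primrec.fst ?_)
      exact Primrec.list_cons.comp (Primrec.encode.comp Primrec.snd)
        (Primrec.list_cons.comp (Primrec.list_length.comp Primrec.snd) (Primrec.const []))
    · refine D.ex (P := fun (l t : List ℕ) => ∃ q : ℕ, l = [encode t, q] ∧
        t[q]? = some (dig a₀ s)) h ?_
      refine D.ex (P := fun (p : List ℕ × List ℕ) (q : ℕ) => p.1 = [encode p.2, q] ∧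
        p.2[q]? = some (dig a₀ s)) h ?_
      refine D.and h (D.of_primrec h ?_) (D.of_primrec h ?_)
      · refine Primrec.eq.comp (Primrec.fst.comp Primrec.fst) ?_
        exact Primrec.list_cons.comp (Primrec.encode.comp (Primrec.snd.comp Primrec.fst))
          (Primrec.list_cons.comp Primrec.snd (Primrec.const []))
      · exact Primrec.eq.comp (Primrec.list_getElem?.comp (Primrec.snd.comp Primrec.fst)
          Primrec.snd) (Primrec.const _)
    · refine D.ex (P := fun (l : List ℕ) (u : List (Sym m)) => l = [cod a₀ u] ∧ f u = c) h ?_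
      refine D.and h (D.of_primrec h ?_) ?_
      · exact Primrec.eq.comp Primrec.fst (Primrec.list_cons.comp
          ((cod_primrec a₀).comp Primrec.snd) (Primrec.const []))
      · exact DF.eq h (DF.comp h (colouring_def h hf) (DF.of_primrec h Primrec.snd))
          (DF.of_primrec h (Primrec.const c))
  intro i
  have h1 : D 𝓜 fun l : List ℕ => l ∈ adv a₀ f i := by
    unfold adv
    rcases hd : (decode i : Option (Name m ℓ)) with _ | x
    · exact (D.const h False).congr fun a => by simp
    · exact key x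
  refine D.nat_iff.1 (D.ex (P := fun (k : ℕ) (l : List ℕ) => l ∈ adv a₀ f i ∧ k = encode l) h ?_)
  exact D.and h (D.comp h h1 Primrec.snd)
    (D.of_primrec h (Primrec.eq.comp Primrec.fst (Primrec.encode.comp Primrec.snd)))

/-! ### The formulas -/

/-- Disjunction of a list of formulas. -/
def orL : List (Form m) → Form m
  | [] => .lt 0 0
  | φ :: l => .neg (.and (.neg φ) (.neg (orL l)))

theorem sat_orL (r : ℕ → ℕ → Prop) (a₀ : Fin m) (R : ℕ → Set (List ℕ)) (w : List (Sym m))
    (e : ℕ → ℕ) (E : ℕ → Set ℕ) (l : List (Form m)) :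
    Sat r a₀ R w e E (orL l) ↔ ∃ φ ∈ l, Sat r a₀ R w e E φ := by
  induction l with
  | nil => simp [orL, Sat]
  | cons φ l ih =>
    simp only [orL, Sat, ih, List.mem_cons, exists_eq_or_imp]
    rw [not_and_or, not_not, not_not]

/-- The symbols which are different from `a₀` and may occur before the first `x_n`. -/
def syms (a₀ : Fin m) (n : ℕ) : List (Sym m) :=
  ((List.finRange m).filter (· ≠ a₀)).map Sum.inl ++ (List.range n).map Sum.inr

theorem mem_syms (a₀ : Fin m) (n : ℕ) (s : Sym m) :
    s ∈ syms a₀ n ↔ s ≠ Sum.inl a₀ ∧ ∀ i, s = Sum.inr i → i < n := by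
  unfold syms
  rcases s with a | i
  · simp
  · simp

/-- The number variable 0 is the first position with the symbol `x_n`. -/
def fFirst (n : ℕ) : Form m :=
  .and (.letter (Sum.inr n) 0) (.neg (.ex 4 (.and (.lt 4 0) (.letter (Sum.inr n) 4))))

/-- The number `y` codes a word of the length given by the number variable 0 which agrees with
the word before this position at all symbols different from `a₀`. -/
def fCond (ℓ : ℕ) (a₀ : Fin m) (n y : ℕ) : Form m :=
  .and (.rel (encode (Sum.inl () : Name m ℓ)) [y, 0])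
    (.neg (.ex 1 (.and (.lt 1 0) (orL ((syms a₀ n).map fun s =>
      .and (.letter s 1) (.neg (.rel (encode (Sum.inr (Sum.inl s) : Name m ℓ)) [y, 1])))))))

/-- The colour of the word before the first `x_n` is `c`, and its code is less than the length. -/
def fCol {ℓ : ℕ} (a₀ : Fin m) (n : ℕ) (c : Fin ℓ) : Form m :=
  .ex 0 (.and (fFirst n) (.ex 2 (.and (fCond ℓ a₀ n 2)
    (.and (.neg (.ex 3 (.and (.lt 3 2) (fCond ℓ a₀ n 3))))
      (.rel (encode (Sum.inr (Sum.inr c) : Name m ℓ)) [2])))))

theorem orL_fo (l : List (Form m)) (h : ∀ φ ∈ l, φ.IsFirstOrder) : (orL l).IsFirstOrder := by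
  induction l with
  | nil => trivial
  | cons φ l ih =>
    exact ⟨h φ (by simp), ih fun ψ hψ => h ψ (by simp [hψ])⟩

theorem orL_bin (l : List (Form m)) (h : ∀ φ ∈ l, φ.IsBinary) : (orL l).IsBinary := by
  induction l with
  | nil => trivial
  | cons φ l ih =>
    exact ⟨h φ (by simp), ih fun ψ hψ => h ψ (by simp [hψ])⟩

theorem fCond_fo (ℓ : ℕ) (a₀ : Fin m) (n y : ℕ) : (fCond ℓ a₀ n y).IsFirstOrder := by
  refine ⟨trivial, trivial, orL_fo _ ?_⟩
  intro φ hφ
  rw [List.mem_map] at hφ
  obtain ⟨s, _, rfl⟩ := hφ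
  exact ⟨trivial, trivial⟩

theorem fCond_bin (ℓ : ℕ) (a₀ : Fin m) (n y : ℕ) : (fCond ℓ a₀ n y).IsBinary := by
  refine ⟨by simp [Form.IsBinary], trivial, orL_bin _ ?_⟩
  intro φ hφ
  rw [List.mem_map] at hφ
  obtain ⟨s, _, rfl⟩ := hφ
  exact ⟨trivial, by simp [Form.IsBinary]⟩

theorem fCol_fo {ℓ : ℕ} (a₀ : Fin m) (n : ℕ) (c : Fin ℓ) : (fCol a₀ n c).IsFirstOrder :=
  ⟨⟨trivial, trivial, trivial⟩, fCond_fo _ _ _ _, ⟨trivial, fCond_fo _ _ _ _⟩, trivial⟩

theorem fCol_bin {ℓ : ℕ} (a₀ : Fin m) (n : ℕ) (c : Fin ℓ) : (fCol a₀ n c).IsBinary :=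
  ⟨⟨trivial, trivial, trivial⟩, fCond_bin _ _ _ _, ⟨trivial, fCond_bin _ _ _ _⟩,
    by simp [Form.IsBinary]⟩

/-- The meaning of `fCond`. -/
theorem sat_fCond {ℓ : ℕ} (a₀ : Fin m) (f : List (Sym m) → Fin ℓ) (n y : ℕ) (hy0 : y ≠ 0)
    (hy1 : y ≠ 1) (w : List (Sym m)) (e : ℕ → ℕ) (E : ℕ → Set ℕ)
    (h0 : w[e 0]? = some (Sum.inr n)) :
    Sat (· ≥ ·) a₀ (adv a₀ f) w e E (fCond ℓ a₀ n y) ↔
      ∃ t : List ℕ, encode t = e y ∧ t.length = e 0 ∧ ∀ q < e 0, ∀ s ∈ syms a₀ n,
        w[q]? = some s → t[q]? = some (dig a₀ s) := by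
  have hlt : e 0 < w.length := by
    by_contra hge
    rw [List.getElem?_eq_none (by omega)] at h0
    cases h0
  unfold fCond
  simp only [Sat, sat_orL, adv_encode, rels, List.mem_map, Set.mem_ofPred_eq]
  constructor
  · rintro ⟨⟨_, t, ht⟩, h2⟩
    simp only [List.map_cons, List.map_nil, List.cons.injEq, and_true] at ht
    obtain ⟨ht1, ht2⟩ := ht
    refine ⟨t, ht1.symm, ht2.symm, ?_⟩
    intro q hq s hs hws
    by_contra hne
    apply h2
    refine ⟨q, by omega, by simpa using hq, _, ⟨s, hs, rfl⟩, ?_⟩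
    simp only [Sat, adv_encode, rels, Set.mem_ofPred_eq]
    refine ⟨by simpa using hws, ?_⟩
    rintro ⟨_, t', q', h3, h4⟩
    simp only [List.map_cons, List.map_nil, List.cons.injEq, and_true] at h3
    obtain ⟨h5, h6⟩ := h3
    rw [Function.update_of_ne hy1, ht1] at h5
    rw [Function.update_self] at h6
    rw [← encode_injective h5, ← h6] at h4
    exact hne h4
  · rintro ⟨t, ht1, ht2, ht3⟩
    have hge : e 0 ≤ e y := by
      rw [← ht1, ← ht2]
      exact length_le_encode t
    refine ⟨⟨?_, t, ?_⟩, ?_⟩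
    · intro x hx hwx y' hy'
      simp only [List.mem_cons, List.not_mem_nil, or_false] at hx hy'
      rcases hx with rfl | rfl
      · rcases hy' with rfl | rfl
        · exact le_rfl
        · exact hge
      · rw [h0] at hwx
        cases hwx
    · simp [ht1, ht2]
    · rintro ⟨q, hq, hq0, φ, ⟨s, hs, rfl⟩, hφ⟩
      simp only [Function.update_self, Function.update_of_ne (show (0:ℕ) ≠ 1 by omega)] at hq0
      simp only [Sat, adv_encode, rels, Set.mem_ofPred_eq, Function.update_self] at hφ
      obtain ⟨hws, hnot⟩ := hφ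
      apply hnot
      refine ⟨?_, t, q, ?_, ht3 q hq0 s hs hws⟩
      · intro x hx hwx y' hy'
        simp only [List.mem_cons, List.not_mem_nil, or_false] at hx hy'
        rcases hx with rfl | rfl
        · rw [Function.update_of_ne hy1]
          rcases hy' with rfl | rfl
          · rw [Function.update_of_ne hy1]
          · rw [Function.update_self]; omega
        · rw [Function.update_self, hws] at hwx
          exact absurd (Option.some.inj hwx) ((mem_syms a₀ n s).1 hs).1
      · simp only [List.map_cons, List.map_nil, Function.update_of_ne hy1, Function.update_self, ht1]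

/-- The meaning of `fCol` in a word whose first `x_n` is at position `k`. -/
theorem sat_fCol {ℓ : ℕ} (a₀ : Fin m) (f : List (Sym m) → Fin ℓ) (n : ℕ) (c : Fin ℓ)
    (w : List (Sym m)) (hw : ∀ i : ℕ, Sum.inr i ∈ w → i < n + 1) (e : ℕ → ℕ) (E : ℕ → Set ℕ) (k : ℕ)
    (hk : w[k]? = some (Sum.inr n)) (hk' : ∀ q < k, w[q]? ≠ some (Sum.inr n)) :
    Sat (· ≥ ·) a₀ (adv a₀ f) w e E (fCol a₀ n c) ↔
      cod a₀ (w.take k) < w.length ∧ f (w.take k) = c := by
  have hkl : k < w.length := by
    by_contra hge
    rw [List.getElem?_eq_none (by omega)] at hk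
    cases hk
  -- the least code
  have hleast : ∀ t : List ℕ, t.length = k →
      (∀ q < k, ∀ s ∈ syms a₀ n, w[q]? = some s → t[q]? = some (dig a₀ s)) →
      cod a₀ (w.take k) ≤ encode t := by
    intro t ht h1
    apply encode_list_mono
    · simp [ht]; omega
    · intro q x y hx hy
      rw [List.getElem?_map] at hx
      rcases hwq : (w.take k)[q]? with _ | s
      · rw [hwq] at hx; simp at hx
      · rw [hwq] at hx
        simp only [Option.map_some, Option.some.injEq] at hx
        have hqk : q < k := by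
          by_contra hge
          rw [List.getElem?_eq_none (by simp; omega)] at hwq
          cases hwq
        rw [List.getElem?_take_of_lt hqk] at hwq
        by_cases hs : s = Sum.inl a₀
        · rw [← hx, hs, dig_a₀]; omega
        · have h2 : s ∈ syms a₀ n := by
            rw [mem_syms]
            refine ⟨hs, ?_⟩
            rintro i rfl
            have h3 := hw i (List.mem_of_getElem? hwq)
            have h4 : i ≠ n := by
              rintro rfl
              exact hk' q hqk hwq
            omega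
          have h3 := h1 q hqk s h2 hwq
          rw [hy] at h3
          rw [← hx, Option.some.inj h3]
  have hself : ∀ q < k, ∀ s ∈ syms a₀ n, w[q]? = some s →
      ((w.take k).map (dig a₀))[q]? = some (dig a₀ s) := by
    intro q hq s _ hws
    rw [List.getElem?_map, List.getElem?_take_of_lt hq, hws]
    rfl
  have hlen : ((w.take k).map (dig a₀)).length = k := by simp; omega
  unfold fCol fFirst
  simp only [Sat]
  constructor
  · rintro ⟨k', hk'l, ⟨h1, h2⟩, p, hp, h3, h4, h5⟩
    simp only [Function.update_self] at h1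
    have hkk : k' = k := by
      rcases lt_trichotomy k' k with h6 | h6 | h6
      · exact absurd h1 (hk' k' h6)
      · exact h6
      · exfalso
        apply h2
        refine ⟨k, hkl, ?_, ?_⟩
        · simpa using h6
        · simpa using hk
    subst hkk
    rw [sat_fCond a₀ f n 2 (by omega) (by omega) w _ E (by simpa using h1)] at h3
    simp only [Function.update_self, Function.update_of_ne (show (0:ℕ) ≠ 2 by omega)] at h3
    obtain ⟨t, ht1, ht2, ht3⟩ := h3
    have h6 := hleast t ht2 ht3
    rw [ht1] at h6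
    have h7 : cod a₀ (w.take k') = p := by
      by_contra hne
      apply h4
      have h8 : cod a₀ (w.take k') < p := by omega
      refine ⟨cod a₀ (w.take k'), by omega, ?_, ?_⟩
      · simpa using h8
      · rw [sat_fCond a₀ f n 3 (by omega) (by omega) w _ E (by simpa using h1)]
        simp only [Function.update_self, Function.update_of_ne (show (0:ℕ) ≠ 2 by omega),
          Function.update_of_ne (show (0:ℕ) ≠ 3 by omega)]
        exact ⟨_, rfl, hlen, hself⟩
    refine ⟨by omega, ?_⟩
    simp only [adv_encode, rels, Set.mem_ofPred_eq] at h5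
    obtain ⟨_, u, hu1, hu2⟩ := h5
    simp only [List.map_cons, List.map_nil, Function.update_self, List.cons.injEq, and_true] at hu1
    rw [← h7] at hu1
    rw [cod_inj a₀ hu1, hu2]
  · rintro ⟨h1, h2⟩
    refine ⟨k, hkl, ⟨by simpa using hk, ?_⟩, cod a₀ (w.take k), h1, ?_, ?_, ?_⟩
    · rintro ⟨q, hq, h3, h4⟩
      simp only [Function.update_self, Function.update_of_ne (show (0:ℕ) ≠ 4 by omega)] at h3 h4
      exact hk' q h3 h4
    · rw [sat_fCond a₀ f n 2 (by omega) (by omega) w _ E (by simpa using hk)]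
      simp only [Function.update_self, Function.update_of_ne (show (0:ℕ) ≠ 2 by omega)]
      exact ⟨_, rfl, hlen, hself⟩
    · rintro ⟨p, hp, h3, h4⟩
      rw [sat_fCond a₀ f n 3 (by omega) (by omega) w _ E (by simpa using hk)] at h4
      simp only [Function.update_self, Function.update_of_ne (show (0:ℕ) ≠ 2 by omega),
        Function.update_of_ne (show (0:ℕ) ≠ 3 by omega),
        Function.update_of_ne (show (2:ℕ) ≠ 3 by omega)] at h3 h4
      obtain ⟨t, ht1, ht2, ht3⟩ := h4
      have h6 := hleast t ht2 ht3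
      omega
    · simp only [adv_encode, rels, Set.mem_ofPred_eq]
      refine ⟨?_, w.take k, ?_, h2⟩
      · intro x hx _ y hy
        simp only [List.mem_cons, List.not_mem_nil, or_false] at hx hy
        rw [hx, hy]
      · simp

end Pool.Agent.Helper29.OV
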