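import Pool.Agent.Helper29.OV.Conv

/-!
# The converse: first order sentences with unrestricted binary advice are as hard as all colourings
-/

namespace Pool.Agent.Helper29.OV

open Encodable

variable {m : ℕ}

theorem IsOmegaWord.le_first {W : ℕ → Sym m} (hW : IsOmegaWord W) (j : ℕ) : j ≤ first W j := by
  have h : StrictMono (first W) := fun i j hij => hW.first_lt hij
  exact h.le_apply

theorem substSym_append {W : ℕ → Sym m} (hW : IsOmegaWord W) (v u : List (Sym m)) (p : ℕ)
    (hp : p < first W v.length) : substSym (v ++ u) (W p) = substSym v (W p) := by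
  rcases hWp : W p with a | j
  · rfl
  · have hj := hW.lt_of_lt_first hp hWp
    simp only [substSym]
    rw [List.getD_eq_getElem _ _ (by simp; omega), List.getD_eq_getElem _ _ hj,
      List.getElem_append_left hj]

theorem subst_append_take {W : ℕ → Sym m} (hW : IsOmegaWord W) (v u : List (Sym m))
    (s : Sym m) : (subst W (v ++ s :: u)).take (first W v.length) = subst W v := by
  have hlt : first W v.length < first W (v ++ s :: u).length :=
    hW.first_lt (by simp)
  apply List.ext_getElem?
  intro p
  by_cases hp : p < first W v.length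
  · rw [List.getElem?_take_of_lt hp, subst_getElem? _ _ _ (hp.trans hlt),
      subst_getElem? _ _ _ hp, substSym_append hW v (s :: u) p hp]
  · rw [List.getElem?_eq_none (by simp; omega),
      List.getElem?_eq_none (by rw [subst_length]; omega)]

theorem subst_append_at {W : ℕ → Sym m} (hW : IsOmegaWord W) (v u : List (Sym m))
    (s : Sym m) : (subst W (v ++ s :: u))[first W v.length]? = some s := by
  have hlt : first W v.length < first W (v ++ s :: u).length :=
    hW.first_lt (by simp)
  rw [subst_getElem? _ _ _ hlt, hW.first_spec]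
  simp [substSym]

theorem isVarWord_append {n : ℕ} {v : List (Sym m)} (hv : IsVarWord n v) (a₀ : Fin m) (L : ℕ) :
    IsVarWord (n+1) (v ++ Sum.inr n :: List.replicate L (Sum.inl a₀)) := by
  have hmem : ∀ i : ℕ, (Sum.inr i : Sym m) ∈ v ++ Sum.inr n :: List.replicate L (Sum.inl a₀) →
      (Sum.inr i : Sym m) ∈ v ∨ i = n := by
    intro i hi
    simp only [List.mem_append, List.mem_cons, Sum.inr.injEq, List.mem_replicate] at hi
    rcases hi with h | h | h
    · exact Or.inl h
    · exact Or.inr h
    · exact absurd h.2 (by simp)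
  refine ⟨?_, ?_, ?_⟩
  · intro i hi
    rcases hmem i hi with h | h
    · have := hv.bound i h
      omega
    · omega
  · intro i hi
    rcases Nat.lt_succ_iff_lt_or_eq.1 hi with h | h
    · exact List.mem_append_left _ (hv.occurs i h)
    · rw [h]
      simp
  · intro i p hp
    rcases Nat.lt_or_ge p v.length with h | h
    · rw [List.getElem?_append_left h] at hp
      obtain ⟨q, hq, hq'⟩ := hv.order i p hp
      exact ⟨q, hq, by rw [List.getElem?_append_left (by omega)]; exact hq'⟩
    · rw [List.getElem?_append_right h] at hp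
      rcases hpv : p - v.length with _ | t
      · rw [hpv] at hp
        simp only [List.getElem?_cons_zero, Option.some.injEq, Sum.inr.injEq] at hp
        obtain ⟨q, hq⟩ := List.mem_iff_getElem?.1 (hv.occurs i (by omega))
        have hql : q < v.length := by
          by_contra hge
          rw [List.getElem?_eq_none (by omega)] at hq
          cases hq
        exact ⟨q, by omega, by rw [List.getElem?_append_left hql]; exact hq⟩
      · rw [hpv, List.getElem?_cons_succ] at hp
        have := List.mem_of_getElem? hp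
        rw [List.mem_replicate] at this
        exact absurd this.2 (by simp)

open Classical in
/-- The colouring of the `(n+1)`-variable words by the colour of the part before the first
`x_n`, if its code is less than the length of the word. -/
noncomputable def cut {ℓ : ℕ} (a₀ : Fin m) (n : ℕ) (f : List (Sym m) → Fin ℓ)
    (w : List (Sym m)) : Fin ℓ :=
  if cod a₀ (w.take (w.findIdx fun s => decide (s = Sum.inr n))) < w.length then
    f (w.take (w.findIdx fun s => decide (s = Sum.inr n))) else f []

theorem findIdx_spec (w : List (Sym m)) (n k : ℕ) (hk : w[k]? = some (Sum.inr n))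
    (hk' : ∀ q < k, w[q]? ≠ some (Sum.inr n)) :
    (w.findIdx fun s => decide (s = Sum.inr n)) = k := by
  have hkl : k < w.length := by
    by_contra hge
    rw [List.getElem?_eq_none (by omega)] at hk
    cases hk
  rw [List.findIdx_eq hkl]
  refine ⟨?_, ?_⟩
  · rw [List.getElem?_eq_getElem hkl] at hk
    simpa using hk
  · intro j hj
    have := hk' j hj
    rw [List.getElem?_eq_getElem (by omega)] at this
    simpa using this

theorem cut_defines {ℓ : ℕ} (a₀ : Fin m) (n : ℕ) (f : List (Sym m) → Fin ℓ) (c : Fin ℓ) :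
    ∃ φ : Form m, φ.IsFirstOrder ∧ φ.IsBinary ∧
      Defines (· ≥ ·) a₀ (adv a₀ f) (n+1) (cut a₀ n f) c φ := by
  -- every (n+1)-variable word has a first `x_n`
  have hex : ∀ w : List (Sym m), IsVarWord (n+1) w → ∃ k : ℕ, w[k]? = some (Sum.inr n) ∧
      ∀ q : ℕ, q < k → w[q]? ≠ some (Sum.inr n) := by
    intro w hw
    classical
    have := List.mem_iff_getElem?.1 (hw.occurs n (by omega))
    exact ⟨Nat.find this, Nat.find_spec this, fun q hq => Nat.find_min this hq⟩
  have hcol : ∀ (c : Fin ℓ) (w : List (Sym m)), IsVarWord (n+1) w →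
      (Sat (· ≥ ·) a₀ (adv a₀ f) w (fun _ => w.length) (fun _ => ∅) (fCol a₀ n c) ↔
        cod a₀ (w.take (w.findIdx fun s => decide (s = Sum.inr n))) < w.length ∧
          f (w.take (w.findIdx fun s => decide (s = Sum.inr n))) = c) := by
    intro c w hw
    obtain ⟨k, hk, hk'⟩ := hex w hw
    rw [sat_fCol a₀ f n c w (fun i hi => hw.bound i hi) _ _ k hk hk', findIdx_spec w n k hk hk']
  set ψ : Form m := .neg (orL ((List.finRange ℓ).map fun c => fCol a₀ n c)) with hψ
  have hψfo : ψ.IsFirstOrder := by
    refine orL_fo _ ?_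
    intro φ hφ
    rw [List.mem_map] at hφ
    obtain ⟨c, _, rfl⟩ := hφ
    exact fCol_fo a₀ n c
  have hψbin : ψ.IsBinary := by
    refine orL_bin _ ?_
    intro φ hφ
    rw [List.mem_map] at hφ
    obtain ⟨c, _, rfl⟩ := hφ
    exact fCol_bin a₀ n c
  have hψs : ∀ w : List (Sym m), IsVarWord (n+1) w →
      (Sat (· ≥ ·) a₀ (adv a₀ f) w (fun _ => w.length) (fun _ => ∅) ψ ↔
        ¬ cod a₀ (w.take (w.findIdx fun s => decide (s = Sum.inr n))) < w.length) := by
    intro w hw
    rw [hψ]
    simp only [Sat]
    rw [sat_orL]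
    apply not_congr
    constructor
    · rintro ⟨φ, hφ, h2⟩
      rw [List.mem_map] at hφ
      obtain ⟨c, _, rfl⟩ := hφ
      exact ((hcol c w hw).1 h2).1
    · intro h1
      exact ⟨_, List.mem_map.2 ⟨_, List.mem_finRange _, rfl⟩, (hcol _ w hw).2 ⟨h1, rfl⟩⟩
  by_cases hc : f [] = c
  · refine ⟨orL [fCol a₀ n c, ψ], ⟨fCol_fo a₀ n c, hψfo, trivial⟩,
      ⟨fCol_bin a₀ n c, hψbin, trivial⟩, fun w hw => ?_⟩
    rw [sat_orL]
    simp only [List.mem_cons, List.not_mem_nil, or_false, exists_eq_or_imp, exists_eq_left]
    rw [hcol c w hw, hψs w hw]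
    unfold cut
    split_ifs with h1
    · tauto
    · tauto
  · refine ⟨fCol a₀ n c, fCol_fo a₀ n c, fCol_bin a₀ n c, fun w hw => ?_⟩
    rw [hcol c w hw]
    unfold cut
    split_ifs with h1
    · tauto
    · tauto

theorem converse {𝓜 : Set (Set ℕ)} (h : Closed 𝓜) (a₀ : Fin m) (n ℓ : ℕ)
    (hyp : ∀ (f : List (Sym m) → Fin ℓ) (R : ℕ → Set (List ℕ)), AdviceIn 𝓜 R →
      (∀ c, ∃ φ : Form m, φ.IsFirstOrder ∧ φ.IsBinary ∧ Defines (· ≥ ·) a₀ R (n+1) f c φ) →
        HasSolution 𝓜 (n+1) f) : SatOVW 𝓜 n ℓ m := by
  intro f hf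
  obtain ⟨W, hW, hWM, c, hc⟩ := hyp (cut a₀ n f) (adv a₀ f) (adviceIn_adv h a₀ hf)
    (cut_defines a₀ n f)
  refine ⟨W, hW, hWM, c, ?_⟩
  intro v hv
  set L := cod a₀ (subst W v) with hL
  have h1 := hc _ (isVarWord_append hv a₀ L)
  set w := subst W (v ++ Sum.inr n :: List.replicate L (Sum.inl a₀)) with hw
  have h2 : (w.findIdx fun s => decide (s = Sum.inr n)) = first W v.length := by
    apply findIdx_spec
    · exact subst_append_at hW v _ _
    · intro q hq h3
      have h4 : (subst W v)[q]? = some (Sum.inr n) := by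
        rw [← subst_append_take hW v (List.replicate L (Sum.inl a₀)) (Sum.inr n),
          List.getElem?_take_of_lt hq]
        exact h3
      have := (isVarWord_subst hW hv).bound n (List.mem_of_getElem? h4)
      omega
  have h3 : w.take (first W v.length) = subst W v := subst_append_take hW v _ _
  have h4 : L < w.length := by
    rw [hw, subst_length]
    refine lt_of_lt_of_le ?_ (hW.le_first _)
    simp
    omega
  unfold cut at h1
  rw [h2, h3, if_pos (by rw [← hL]; exact h4)] at h1
  exact h1

end Pool.Agent.Helper29.OV
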