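import Pool.Agent.Helper29.OV.Conv

/-!
# Reduction of the number of colours and of the number of letters
-/

namespace Pool.Agent.Helper29.OV

open Encodable

variable {m : ℕ}

/-! ### Composition of omega-variable words -/

/-- `W₁[W₂]`: the variable `x_i` of `W₁` is replaced by `W₂ i`. -/
def comp (W₁ W₂ : ℕ → Sym m) (p : ℕ) : Sym m :=
  match W₁ p with
  | Sum.inl a => Sum.inl a
  | Sum.inr i => W₂ i

theorem comp_inr {W₁ W₂ : ℕ → Sym m} {p i : ℕ} (h : W₁ p = Sum.inr i) : comp W₁ W₂ p = W₂ i := by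
  simp only [comp, h]

theorem comp_inl {W₁ W₂ : ℕ → Sym m} {p : ℕ} {a : Fin m} (h : W₁ p = Sum.inl a) :
    comp W₁ W₂ p = Sum.inl a := by
  simp only [comp, h]

theorem of_comp {W₁ W₂ : ℕ → Sym m} {p j : ℕ} (h : comp W₁ W₂ p = Sum.inr j) :
    ∃ i, W₁ p = Sum.inr i ∧ W₂ i = Sum.inr j := by
  rcases hp : W₁ p with a | i
  · rw [comp_inl hp] at h
    cases h
  · rw [comp_inr hp] at h
    exact ⟨i, rfl, h⟩

theorem comp_omega {W₁ W₂ : ℕ → Sym m} (h₁ : IsOmegaWord W₁) (h₂ : IsOmegaWord W₂) :
    IsOmegaWord (comp W₁ W₂) := by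
  refine ⟨fun j => ?_, fun j p hp => ?_⟩
  · obtain ⟨i, hi⟩ := h₂.occurs j
    obtain ⟨p, hp⟩ := h₁.occurs i
    exact ⟨p, by rw [comp_inr hp, hi]⟩
  · obtain ⟨i, hi, hj⟩ := of_comp hp
    obtain ⟨i', hi', hj'⟩ := h₂.order j i hj
    obtain ⟨q, hq, hq'⟩ := h₁.earlier hi hi'.le
    refine ⟨q, lt_of_le_of_ne hq fun he => ?_, by rw [comp_inr hq', hj']⟩
    rw [he, hi] at hq'
    have := Sum.inr.inj hq'
    omega

theorem first_comp {W₁ W₂ : ℕ → Sym m} (h₁ : IsOmegaWord W₁) (h₂ : IsOmegaWord W₂) (j : ℕ) :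
    first (comp W₁ W₂) j = first W₁ (first W₂ j) := by
  apply le_antisymm
  · apply first_le
    rw [comp_inr (h₁.first_spec _), h₂.first_spec]
  · obtain ⟨i, hi, hj⟩ := of_comp ((comp_omega h₁ h₂).first_spec j)
    have h3 := first_le hj
    obtain ⟨q, hq, hq'⟩ := h₁.earlier hi h3
    exact (first_le hq').trans hq

theorem subst_comp {W₁ W₂ : ℕ → Sym m} (h₁ : IsOmegaWord W₁) (h₂ : IsOmegaWord W₂)
    (v : List (Sym m)) : subst (comp W₁ W₂) v = subst W₁ (subst W₂ v) := by
  rw [subst_eq, subst_eq W₁, subst_length, first_comp h₁ h₂]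
  apply List.map_congr_left
  intro p hp
  rw [List.mem_range] at hp
  rcases hWp : W₁ p with a | i
  · rw [comp_inl hWp]
    rfl
  · have hi := h₁.lt_of_lt_first hp hWp
    rw [comp_inr hWp]
    have h3 := subst_getElem? W₂ v i hi
    simp only [substSym]
    rw [List.getD_eq_getElem?_getD, h3]
    rfl

/-! ### Definability -/

variable {𝓜 : Set (Set ℕ)}

theorem DF_of_graph (h : Closed 𝓜) {W : ℕ → Sym m}
    (hW : {k | ∃ p, k = Nat.pair p (encode (W p))} ∈ 𝓜) : DF 𝓜 W := by
  have h1 : Primrec fun q : ℕ × Sym m => Nat.pair q.1 (encode q.2) :=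
    Primrec₂.natPair.comp Primrec.fst (Primrec.encode.comp Primrec.snd)
  refine (D.comp h (D.nat_iff.2 hW) h1).congr fun q => ?_
  constructor
  · rintro ⟨w, hw⟩
    obtain ⟨h2, h3⟩ := Nat.pair_eq_pair.1 hw
    rw [h2]
    exact (encode_injective h3).symm
  · intro h2
    exact ⟨q.1, by rw [h2]⟩

theorem colouringIn_of_DF (h : Closed 𝓜) {ℓ : ℕ} {f : List (Sym m) → Fin ℓ} (hf : DF 𝓜 f) :
    ColouringIn 𝓜 f := by
  refine D.nat_iff.1 (D.ex (P := fun (k : ℕ) (w : List (Sym m)) =>
    k = Nat.pair (encode w) (f w : ℕ)) h ?_)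
  have h1 : DF 𝓜 fun q : List (Sym m) × Fin ℓ => Nat.pair (encode q.1) (q.2 : ℕ) :=
    DF.of_primrec h (Primrec₂.natPair.comp (Primrec.encode.comp Primrec.fst)
      (Primrec.fin_val.comp Primrec.snd))
  have h2 : DF 𝓜 fun q : ℕ × List (Sym m) => (q.2, f q.2) :=
    DF.pair h (DF.of_primrec h Primrec.snd) (DF.comp h hf (DF.of_primrec h Primrec.snd))
  exact DF.eq h (DF.of_primrec h Primrec.fst) (DF.comp h h1 h2)

theorem comp_def (h : Closed 𝓜) {W₁ W₂ : ℕ → Sym m} (h₁ : DF 𝓜 W₁) (h₂ : DF 𝓜 W₂) :
    DF 𝓜 (comp W₁ W₂) := by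
  have hg : DF 𝓜 fun s : Sym m => (Sum.elim Sum.inl W₂ s : Sym m) := by
    have h3 : D 𝓜 fun q : Sym m × Sym m => (∃ a : Fin m, q.1 = Sum.inl a ∧ q.2 = Sum.inl a) ∨
        ∃ i : ℕ, q.1 = Sum.inr i ∧ W₂ i = q.2 := by
      refine D.or h ?_ ?_
      · refine D.ex (P := fun (q : Sym m × Sym m) (a : Fin m) =>
          q.1 = Sum.inl a ∧ q.2 = Sum.inl a) h (D.and h (D.of_primrec h ?_) (D.of_primrec h ?_))
        · exact Primrec.eq.comp (Primrec.fst.comp Primrec.fst) (Primrec.sumInl.comp Primrec.snd)
        · exact Primrec.eq.comp (Primrec.snd.comp Primrec.fst) (Primrec.sumInl.comp Primrec.snd)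
      · refine D.ex (P := fun (q : Sym m × Sym m) (i : ℕ) =>
          q.1 = Sum.inr i ∧ W₂ i = q.2) h (D.and h (D.of_primrec h ?_) ?_)
        · exact Primrec.eq.comp (Primrec.fst.comp Primrec.fst) (Primrec.sumInr.comp Primrec.snd)
        · exact DF.eq h (DF.comp h h₂ (DF.of_primrec h Primrec.snd))
            (DF.of_primrec h (Primrec.snd.comp Primrec.fst))
    refine h3.congr fun q => ?_
    obtain ⟨s, t⟩ := q
    rcases s with a | i
    · constructor
      · rintro (⟨b, hb1, hb2⟩ | ⟨i, hi, _⟩)
        · simp only at hb1 hb2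
          rw [hb2, ← hb1]
          rfl
        · simp at hi
      · intro h4
        exact Or.inl ⟨a, rfl, h4.symm⟩
    · constructor
      · rintro (⟨b, hb1, hb2⟩ | ⟨j, hj1, hj2⟩)
        · simp at hb1
        · simp only [Sum.inr.injEq] at hj1
          subst hj1
          exact hj2
      · intro h4
        exact Or.inr ⟨i, rfl, h4⟩
  have h5 := DF.comp h hg h₁
  have h6 : (fun p => (Sum.elim Sum.inl W₂ (W₁ p) : Sym m)) = comp W₁ W₂ := by
    funext p
    unfold comp
    rcases W₁ p with a | i <;> rfl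
  rw [h6] at h5
  exact h5

theorem first_def (h : Closed 𝓜) {W : ℕ → Sym m} (hW : DF 𝓜 W) : DF 𝓜 (first W) := by
  refine DF.sInf (P := fun (j p : ℕ) => W p = Sum.inr j) h ?_
  exact DF.eq h (DF.comp h hW (DF.of_primrec h Primrec.snd))
    (DF.of_primrec h (Primrec.sumInr.comp Primrec.fst))

theorem substSym_def (h : Closed 𝓜) :
    DF 𝓜 fun q : List (Sym m) × Sym m => substSym q.1 q.2 := by
  have h1 : Primrec fun q : List (Sym m) × Sym m =>
      (Sum.casesOn q.2 (fun a => Sum.inl a) (fun i => (q.1[i]?).getD (Sum.inr i)) : Sym m) := by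
    refine Primrec.sumCasesOn Primrec.snd ?_ ?_
    · exact Primrec.sumInl.comp Primrec.snd
    · exact Primrec.option_getD.comp
        (Primrec.list_getElem?.comp (Primrec.fst.comp Primrec.fst) Primrec.snd)
        (Primrec.sumInr.comp Primrec.snd)
  refine DF.of_primrec h (h1.of_eq fun q => ?_)
  obtain ⟨v, s⟩ := q
  rcases s with a | i
  · rfl
  · simp [substSym]

theorem subst_def (h : Closed 𝓜) {W : ℕ → Sym m} (hW : DF 𝓜 W) : DF 𝓜 (subst W) := by
  have h1 : D 𝓜 fun q : List (Sym m) × List (Sym m) => q.2.length = first W q.1.length :=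
    DF.eq h (DF.of_primrec h (Primrec.list_length.comp Primrec.snd))
      (DF.comp h (first_def h hW) (DF.of_primrec h (Primrec.list_length.comp Primrec.fst)))
  have h2 : D 𝓜 fun q : List (Sym m) × List (Sym m) => ∀ p : ℕ, p < q.2.length →
      q.2[p]? = some (substSym q.1 (W p)) := by
    refine D.all (P := fun (q : List (Sym m) × List (Sym m)) (p : ℕ) => p < q.2.length →
      q.2[p]? = some (substSym q.1 (W p))) h ?_
    refine D.imp h ?_ ?_
    · exact D.of_primrec h (Primrec.nat_lt.comp Primrec.snd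
        (Primrec.list_length.comp (Primrec.snd.comp Primrec.fst)))
    · refine DF.eq h ?_ ?_
      · exact DF.of_primrec h (Primrec.list_getElem?.comp (Primrec.snd.comp Primrec.fst)
          Primrec.snd)
      · refine DF.comp h (DF.of_primrec h Primrec.option_some) ?_
        refine DF.comp h (f := fun q : (List (Sym m) × List (Sym m)) × ℕ =>
          (q.1.1, W q.2)) (substSym_def h) ?_
        exact DF.pair h (DF.of_primrec h (Primrec.fst.comp Primrec.fst))
          (DF.comp h hW (DF.of_primrec h Primrec.snd))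
  refine (D.and h h1 h2).congr fun q => ?_
  obtain ⟨v, u⟩ := q
  simp only
  constructor
  · rintro ⟨h3, h4⟩
    apply List.ext_getElem?
    intro p
    by_cases hp : p < first W v.length
    · rw [subst_getElem? _ _ _ hp, h4 p (by omega)]
    · rw [List.getElem?_eq_none (by rw [subst_length]; omega),
        List.getElem?_eq_none (by omega)]
  · rintro rfl
    refine ⟨subst_length W v, fun p hp => ?_⟩
    rw [subst_length] at hp
    exact subst_getElem? _ _ _ hp

/-! ### Colours -/

theorem inr_omega : IsOmegaWord (fun p => (Sum.inr p : Sym m)) :=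
  ⟨fun i => ⟨i, rfl⟩, fun i p hp => ⟨i, by have := Sum.inr.inj hp; omega, rfl⟩⟩

theorem colours (h : Closed 𝓜) (n : ℕ) (h2 : SatOVW 𝓜 n 2 m) : ∀ ℓ, SatOVW 𝓜 n ℓ m := by
  intro ℓ
  induction ℓ with
  | zero =>
    intro f _
    exact Fin.elim0 (f [])
  | succ ℓ ih =>
    intro f hf
    classical
    have hfD := colouring_def h hf
    -- the two-colouring
    have hg : DF 𝓜 fun w : List (Sym m) => if f w = Fin.last ℓ then (1 : Fin 2) else 0 := by
      refine DF.ite h ?_ (DF.of_primrec h (Primrec.const _)) (DF.of_primrec h (Primrec.const _))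
      exact DF.eq h hfD (DF.of_primrec h (Primrec.const _))
    obtain ⟨W₁, hW₁, hW₁M, c₁, hc₁⟩ := h2 _ (colouringIn_of_DF h hg)
    by_cases hc : c₁ = 1
    · refine ⟨W₁, hW₁, hW₁M, Fin.last ℓ, fun v hv => ?_⟩
      have h3 := hc₁ v hv
      rw [hc] at h3
      by_contra h4
      simp only [if_neg h4] at h3
      exact absurd h3 (by decide)
    · have h3 : ∀ v, IsVarWord n v → f (subst W₁ v) ≠ Fin.last ℓ := by
        intro v hv h4
        have h5 := hc₁ v hv
        simp only [if_pos h4] at h5
        exact hc h5.symm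
      by_cases hex : ∃ v : List (Sym m), IsVarWord n v
      · obtain ⟨v₀, hv₀⟩ := hex
        have hℓ : 0 < ℓ := by
          have h4 := h3 v₀ hv₀
          rcases Nat.eq_zero_or_pos ℓ with h5 | h5
          · subst h5
            refine absurd (Fin.ext ?_) h4
            have := (f (subst W₁ v₀)).isLt
            simp only [Fin.val_last]
            omega
          · exact h5
        -- the colouring with fewer colours
        set g : Fin (ℓ+1) → Fin ℓ := fun c => if hc : (c : ℕ) < ℓ then ⟨c, hc⟩ else ⟨0, hℓ⟩ with hgdef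
        have hgD : DF 𝓜 fun w : List (Sym m) => g (f (subst W₁ w)) := by
          refine DF.comp h (DF.of_primrec h (Primrec.dom_finite g)) ?_
          exact DF.comp h hfD (subst_def h (DF_of_graph h hW₁M))
        obtain ⟨W₂, hW₂, hW₂M, c₂, hc₂⟩ := ih _ (colouringIn_of_DF h hgD)
        refine ⟨comp W₁ W₂, comp_omega hW₁ hW₂,
          graph_mem h (comp_def h (DF_of_graph h hW₁M) (DF_of_graph h hW₂M)),
          Fin.castSucc c₂, fun v hv => ?_⟩
        rw [subst_comp hW₁ hW₂]
        have h4 := hc₂ v hv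
        have h5 := h3 _ (isVarWord_subst hW₂ hv)
        have h6 : (f (subst W₁ (subst W₂ v)) : ℕ) < ℓ := by
          have h7 := (f (subst W₁ (subst W₂ v))).isLt
          have h8 : (f (subst W₁ (subst W₂ v)) : ℕ) ≠ ℓ := fun h9 => h5 (Fin.ext h9)
          omega
        simp only [hgdef, dif_pos h6] at h4
        rw [← h4]
        rfl
      · exact ⟨W₁, hW₁, hW₁M, f [], fun v hv => absurd ⟨v, hv⟩ hex⟩

/-! ### Letters -/

/-- The variable `x_0` becomes the new letter. -/
def tau : Sym m → Sym (m+1)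
  | Sum.inl a => Sum.inl a.castSucc
  | Sum.inr 0 => Sum.inl (Fin.last m)
  | Sum.inr (i+1) => Sum.inr i

/-- The new letter becomes the variable `x_0`. -/
def sig : Sym (m+1) → Sym m
  | Sum.inl a => if h : (a : ℕ) < m then Sum.inl ⟨a, h⟩ else Sum.inr 0
  | Sum.inr i => Sum.inr (i+1)

theorem tau_sig (s : Sym (m+1)) : tau (sig s) = s := by
  rcases s with a | i
  · simp only [sig]
    split_ifs with h
    · rfl
    · have : a = Fin.last m := Fin.ext (by have := a.isLt; simp; omega)
      rw [this]
      rfl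
  · rfl

theorem tau_primrec : Primrec (tau : Sym m → Sym (m+1)) := by
  have h1 : Primrec fun s : Sym m => (Sum.casesOn s (fun a => Sum.inl a.castSucc)
      (fun i => Nat.casesOn i (Sum.inl (Fin.last m)) (fun j => Sum.inr j)) : Sym (m+1)) := by
    refine Primrec.sumCasesOn Primrec.id ?_ ?_
    · exact Primrec.sumInl.comp ((Primrec.dom_finite (fun a : Fin m => a.castSucc)).comp
        Primrec.snd)
    · exact Primrec.nat_casesOn Primrec.snd (Primrec.const _) (Primrec.sumInr.comp Primrec.snd)
  refine h1.of_eq fun s => ?_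
  rcases s with a | i
  · rfl
  · cases i <;> rfl

theorem tau_eq_inr {s : Sym m} {j : ℕ} (h : tau s = Sum.inr j) : s = Sum.inr (j+1) := by
  rcases s with a | i
  · simp [tau] at h
  · rcases i with _ | i
    · simp [tau] at h
    · simp only [tau, Sum.inr.injEq] at h
      rw [h]

theorem letters (h : Closed 𝓜) (n ℓ : ℕ) (h1 : SatOVW 𝓜 (n+1) ℓ m) : SatOVW 𝓜 n ℓ (m+1) := by
  intro f hf
  have hg : DF 𝓜 fun w : List (Sym m) => f (w.map tau) :=
    DF.comp h (colouring_def h hf) (DF.of_primrec h (Primrec.list_map Primrec.id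
      (tau_primrec.comp Primrec.snd)))
  obtain ⟨W, hW, hWM, c, hc⟩ := h1 _ (colouringIn_of_DF h hg)
  have hfirst : ∀ j, first (fun p => tau (W p)) j = first W (j+1) := by
    intro j
    apply le_antisymm
    · apply first_le
      rw [hW.first_spec]
      rfl
    · have hne : ∃ p, tau (W p) = Sum.inr j := ⟨first W (j+1), by rw [hW.first_spec]; rfl⟩
      exact first_le (tau_eq_inr (Nat.sInf_mem (s := {p | tau (W p) = Sum.inr j}) hne))
  have homega : IsOmegaWord fun p => tau (W p) := by
    refine ⟨fun i => ⟨first W (i+1), by rw [hW.first_spec]; rfl⟩, fun i p hp => ?_⟩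
    obtain ⟨q, hq, hq'⟩ := hW.order (i+1) p (tau_eq_inr hp)
    exact ⟨q, hq, by rw [hq']; rfl⟩
  refine ⟨fun p => tau (W p), homega, graph_mem h (DF.comp h (DF.of_primrec h tau_primrec)
    (DF_of_graph h hWM)), c, ?_⟩
  intro v hv
  have hv' : IsVarWord (n+1) (Sum.inr 0 :: v.map sig) := by
    have hmem : ∀ i : ℕ, (Sum.inr (i+1) : Sym m) ∈ v.map sig → Sum.inr i ∈ v := by
      intro i hi
      rw [List.mem_map] at hi
      obtain ⟨s, hs, hs'⟩ := hi
      have h2 := congrArg tau hs'
      rw [tau_sig] at h2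
      rw [show (Sum.inr i : Sym (m+1)) = tau (Sum.inr (i+1) : Sym m) from rfl, ← h2]
      exact hs
    refine ⟨?_, ?_, ?_⟩
    · intro i hi
      rcases i with _ | i
      · omega
      · rw [List.mem_cons] at hi
        rcases hi with hi | hi
        · simp at hi
        · have := hv.bound i (hmem i hi)
          omega
    · intro i hi
      rcases i with _ | i
      · simp
      · refine List.mem_cons_of_mem _ (List.mem_map.2 ⟨Sum.inr i, hv.occurs i (by omega), rfl⟩)
    · intro i p hp
      rcases p with _ | p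
      · simp at hp
      · rcases i with _ | i
        · exact ⟨0, by omega, by simp⟩
        · rw [List.getElem?_cons_succ, List.getElem?_map] at hp
          rcases hvp : v[p]? with _ | s
          · rw [hvp] at hp
            simp at hp
          · rw [hvp] at hp
            simp only [Option.map_some, Option.some.injEq] at hp
            have h2 := congrArg tau hp
            rw [tau_sig] at h2
            rw [h2] at hvp
            obtain ⟨q, hq, hq'⟩ := hv.order i p hvp
            exact ⟨q+1, by omega, by rw [List.getElem?_cons_succ, List.getElem?_map, hq']; rfl⟩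
  have h2 := hc _ hv'
  have h3 : (subst W (Sum.inr 0 :: v.map sig)).map tau = subst (fun p => tau (W p)) v := by
    rw [subst_eq, subst_eq, hfirst, List.map_map]
    have hl : (Sum.inr 0 :: v.map sig : List (Sym m)).length = v.length + 1 := by simp
    rw [hl]
    apply List.map_congr_left
    intro p hp
    rw [List.mem_range] at hp
    simp only [Function.comp_apply]
    rcases hWp : W p with a | i
    · rfl
    · rcases i with _ | i
      · simp [substSym, tau]
      · have hi := hW.lt_of_lt_first hp hWp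
        have hi' : i < v.length := by omega
        have h4 : substSym (Sum.inr 0 :: v.map sig) (Sum.inr (i+1) : Sym m) = sig v[i] := by
          simp only [substSym]
          rw [List.getD_eq_getElem _ _ (by simpa using hi)]
          simp only [List.getElem_cons_succ, List.getElem_map]
        rw [h4, tau_sig]
        simp only [tau, substSym]
        rw [List.getD_eq_getElem _ _ hi']
  rw [← h3]
  exact h2

/-- The statement for two colours and one letter, for all numbers of variables, implies all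
cases. -/
theorem reduction (h : Closed 𝓜) (h1 : ∀ n, SatOVW 𝓜 n 2 1) (n ℓ m : ℕ) :
    SatOVW 𝓜 n ℓ (m+1) := by
  have h2 : ∀ m n, SatOVW 𝓜 n 2 (m+1) := by
    intro m
    induction m with
    | zero => exact h1
    | succ m ih => exact fun n => letters h n 2 (ih (n+1))
  exact colours h n (h2 m n) ℓ

end Pool.Agent.Helper29.OV
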