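import Pool.Agent.Helper29.OV.Conv2
import Pool.Agent.Helper29.OV.Red

/-!
# One first order sentence for each number of variables
-/

namespace Pool.Agent.Helper29.OV

open Encodable

variable {m : ℕ}

open Classical in
/-- The two-colouring of the `(n+1)`-variable words by the colour of the part before the first
`x_n`, if its code is less than the length of the word, and `0` otherwise. -/
noncomputable def cut0 (a₀ : Fin m) (n : ℕ) (f : List (Sym m) → Fin 2) (w : List (Sym m)) :
    Fin 2 :=
  if cod a₀ (w.take (w.findIdx fun s => decide (s = Sum.inr n))) < w.length then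
    f (w.take (w.findIdx fun s => decide (s = Sum.inr n))) else 0

theorem cut0_defines (a₀ : Fin m) (n : ℕ) (f : List (Sym m) → Fin 2) :
    Defines (· ≥ ·) a₀ (adv a₀ f) (n+1) (cut0 a₀ n f) 1 (fCol a₀ n (1 : Fin 2)) := by
  intro w hw
  have hex : ∃ k : ℕ, w[k]? = some (Sum.inr n) ∧
      ∀ q : ℕ, q < k → w[q]? ≠ some (Sum.inr n) := by
    classical
    have := List.mem_iff_getElem?.1 (hw.occurs n (by omega))
    exact ⟨Nat.find this, Nat.find_spec this, fun q hq => Nat.find_min this hq⟩
  obtain ⟨k, hk, hk'⟩ := hex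
  rw [sat_fCol a₀ f n 1 w (fun i hi => hw.bound i hi) _ _ k hk hk']
  unfold cut0
  rw [findIdx_spec w n k hk hk']
  split_ifs with h1
  · tauto
  · constructor
    · intro h2
      exact absurd h2 (by decide)
    · intro h2
      exact absurd h2.1 h1

theorem converse0 {𝓜 : Set (Set ℕ)} (h : Closed 𝓜) (a₀ : Fin m) (n : ℕ)
    (hyp : ∀ (f : List (Sym m) → Fin 2) (R : ℕ → Set (List ℕ)), AdviceIn 𝓜 R →
      Defines (· ≥ ·) a₀ R (n+1) f 1 (fCol a₀ n (1 : Fin 2)) → HasSolution 𝓜 (n+1) f) :
    SatOVW 𝓜 n 2 m := by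
  intro f hf
  obtain ⟨W, hW, hWM, c, hc⟩ := hyp (cut0 a₀ n f) (adv a₀ f) (adviceIn_adv h a₀ hf)
    (cut0_defines a₀ n f)
  refine ⟨W, hW, hWM, c, ?_⟩
  intro v hv
  set L := cod a₀ (subst W v) with hL
  have h1 := hc _ (isVarWord_append hv a₀ L)
  set w := subst W (v ++ Sum.inr n :: List.replicate L (Sum.inl a₀)) with hw
  have h2 : (w.findIdx fun s => decide (s = Sum.inr n)) = first W v.length := by
    apply findIdx_spec
    · exact subst_append_at hW v _ _
    · intro q hq h3
      have h4 : (subst W v)[q]? = some (Sum.inr n) := by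
        rw [← subst_append_take hW v (List.replicate L (Sum.inl a₀)) (Sum.inr n),
          List.getElem?_take_of_lt hq]
        exact h3
      have := (isVarWord_subst hW hv).bound n (List.mem_of_getElem? h4)
      omega
  have h3 : w.take (first W v.length) = subst W v := subst_append_take hW v _ _
  have h4 : L < w.length := by
    rw [hw, subst_length]
    refine lt_of_lt_of_le ?_ (hW.le_first _)
    simp
    omega
  unfold cut0 at h1
  rw [h2, h3, if_pos (by rw [← hL]; exact h4)] at h1
  exact h1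

/-- The universal sentences. -/
def uni : ℕ → Form 1
  | 0 => .lt 0 0
  | n + 1 => fCol (0 : Fin 1) n (1 : Fin 2)

theorem uni_fo (n : ℕ) : (uni n).IsFirstOrder := by
  cases n with
  | zero => trivial
  | succ n => exact fCol_fo _ _ _

theorem uni_bin (n : ℕ) : (uni n).IsBinary := by
  cases n with
  | zero => trivial
  | succ n => exact fCol_bin _ _ _

theorem uni_spec {𝓜 : Set (Set ℕ)} (h : Closed 𝓜)
    (hyp : ∀ (n : ℕ) (f : List (Sym 1) → Fin 2) (R : ℕ → Set (List ℕ)), AdviceIn 𝓜 R →
      Defines (· ≥ ·) 0 R n f 1 (uni n) → HasSolution 𝓜 n f) (n ℓ m : ℕ) :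
    SatOVW 𝓜 n ℓ (m+1) :=
  reduction h (fun n => converse0 h (0 : Fin 1) n fun f R hR hd => hyp (n+1) f R hR hd) n ℓ m

end Pool.Agent.Helper29.OV
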