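import Mathlib

/-!
# MP_81e84b_lc: ordered variable words, definable colourings, omega-models of ACA_0

The definitions of the statement of Theorem OV.
-/

namespace Pool.Agent.Helper29.OV

/-! ### Variable words -/

/-- The symbols: `Sum.inl a` is the letter `a` of the alphabet `Fin m`, and `Sum.inr i` is the
variable `x_i`. -/
abbrev Sym (m : ℕ) : Type := Fin m ⊕ ℕ

/-- `v` is an `n`-variable word over the alphabet `Fin m`: exactly the variables `x_i` with
`i < n` occur in it, and every occurrence of `x_(i+1)` comes after an occurrence of `x_i` (that is,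
the first occurrence of `x_i` comes before the first occurrence of `x_(i+1)`). -/
structure IsVarWord {m : ℕ} (n : ℕ) (v : List (Sym m)) : Prop where
  bound : ∀ i : ℕ, Sum.inr i ∈ v → i < n
  occurs : ∀ i : ℕ, i < n → Sum.inr i ∈ v
  order : ∀ i p : ℕ, v[p]? = some (Sum.inr (i + 1)) → ∃ q, q < p ∧ v[q]? = some (Sum.inr i)

/-- `W` is an omega-variable word over the alphabet `Fin m`: every variable occurs in it, and the
first occurrence of `x_i` comes before the first occurrence of `x_(i+1)`. -/
structure IsOmegaWord {m : ℕ} (W : ℕ → Sym m) : Prop where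
  occurs : ∀ i : ℕ, ∃ p, W p = Sum.inr i
  order : ∀ i p : ℕ, W p = Sum.inr (i + 1) → ∃ q, q < p ∧ W q = Sum.inr i

/-- The symbol which replaces a symbol when `v 0, v 1, ...` are substituted for
`x_0, x_1, ...`. -/
def substSym {m : ℕ} (v : List (Sym m)) : Sym m → Sym m
  | Sum.inl a => Sum.inl a
  | Sum.inr i => v.getD i (Sum.inr i)

/-- The word `W[v]`: `v i` is substituted for every occurrence of `x_i`, `i < |v|`, and the word
is cut at the first occurrence of the variable `x_|v|`. -/
noncomputable def subst {m : ℕ} (W : ℕ → Sym m) (v : List (Sym m)) : List (Sym m) :=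
  (List.range (sInf {p | W p = Sum.inr v.length})).map fun p => substSym v (W p)

/-! ### Omega-models of ACA_0 -/

/-- The arithmetical predicates of an assignment `e` of numbers to the variables `0, 1, 2, ...`,
with set parameters from `𝓜`: the predicates defined by the formulas of second order arithmetic
without set quantifiers, in which the free set variables denote members of `𝓜`. -/
inductive Arith (𝓜 : Set (Set ℕ)) : ((ℕ → ℕ) → Prop) → Prop
  | add (i j k : ℕ) : Arith 𝓜 fun e => e i + e j = e k
  | mul (i j k : ℕ) : Arith 𝓜 fun e => e i * e j = e k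
  | mem (X : Set ℕ) (hX : X ∈ 𝓜) (i : ℕ) : Arith 𝓜 fun e => e i ∈ X
  | neg {P : (ℕ → ℕ) → Prop} (hP : Arith 𝓜 P) : Arith 𝓜 fun e => ¬ P e
  | and {P Q : (ℕ → ℕ) → Prop} (hP : Arith 𝓜 P) (hQ : Arith 𝓜 Q) : Arith 𝓜 fun e => P e ∧ Q e
  | ex {P : (ℕ → ℕ) → Prop} (i : ℕ) (hP : Arith 𝓜 P) :
      Arith 𝓜 fun e => ∃ a, P (Function.update e i a)

/-- The family `𝓜` of sets of natural numbers is (the second order part of) an omega-model of
`ACA_0`: it satisfies arithmetical comprehension, with number and set parameters. -/
def IsOmegaModelACA (𝓜 : Set (Set ℕ)) : Prop :=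
  ∀ P : (ℕ → ℕ) → Prop, Arith 𝓜 P → ∀ (e : ℕ → ℕ) (i : ℕ), {a | P (Function.update e i a)} ∈ 𝓜

/-! ### Monadic second order formulas about words, with advice -/

/-- The formulas: `lt x y` is `x < y`; `letter s x` says that the symbol at position `x` is `s`;
`rel i xs` is the `i`-th advice relation applied to the tuple `xs`; `mem x Y` is `x ∈ Y`; `ex x` is
the quantifier over positions and `exSet Y` is the quantifier over sets of positions. Lower case
indices are number variables, and `Y` is a set variable. -/
inductive Form (m : ℕ) : Type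
  | lt (x y : ℕ)
  | letter (s : Sym m) (x : ℕ)
  | rel (i : ℕ) (xs : List ℕ)
  | mem (x Y : ℕ)
  | neg (φ : Form m)
  | and (φ ψ : Form m)
  | ex (x : ℕ) (φ : Form m)
  | exSet (Y : ℕ) (φ : Form m)

/-- Truth of a formula in the word `w` with the advice relations `R`, at the assignments `e`
(number variables) and `E` (set variables). A relation is true of a tuple only if every entry of
the tuple which is a position carrying the letter `a₀` is the smallest entry of the tuple. -/
def Holds {m : ℕ} (a₀ : Fin m) (R : ℕ → Set (List ℕ)) (w : List (Sym m)) :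
    (ℕ → ℕ) → (ℕ → Set ℕ) → Form m → Prop
  | e, _, .lt x y => e x < e y
  | e, _, .letter s x => w[e x]? = some s
  | e, _, .rel i xs =>
      (∀ x ∈ xs, w[e x]? = some (Sum.inl a₀) → ∀ y ∈ xs, e x ≤ e y) ∧ xs.map e ∈ R i
  | e, E, .mem x Y => e x ∈ E Y
  | e, E, .neg φ => ¬ Holds a₀ R w e E φ
  | e, E, .and φ ψ => Holds a₀ R w e E φ ∧ Holds a₀ R w e E ψ
  | e, E, .ex x φ => ∃ p, p < w.length ∧ Holds a₀ R w (Function.update e x p) E φ
  | e, E, .exSet Y φ =>
      ∃ S : Set ℕ, (∀ p ∈ S, p < w.length) ∧ Holds a₀ R w e (Function.update E Y S) φ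

/-- Truth of a sentence in the word `w` with advice. Number variables which are not bound by a
quantifier denote the length `|w|` of the word, and set variables which are not bound denote the
empty set. -/
def Models {m : ℕ} (a₀ : Fin m) (R : ℕ → Set (List ℕ)) (w : List (Sym m)) (φ : Form m) : Prop :=
  Holds a₀ R w (fun _ => w.length) (fun _ => ∅) φ

end Pool.Agent.Helper29.OV
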