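import Pool.Agent.Helper29.OV.Api

/-!
# Goals of project OV (MP_81e84b_lc)

Each goal has its complete proof in its docstring. Finished packets replace these statements in the
imports of `Main.lean`.

The closure properties `D.and`, `D.ex`, `DF.comp`, `DF.nat_rec`, `exists_seq`, ... are proved in
`OV/Api.lean` (import it).
-/

namespace Pool.Agent.Helper29.OV

open Encodable

/-! ## The packets -/

/-- **ARC** (arithmetical comprehension gives the closure properties).

Proof. Let `Ar k R` for `R : (Fin k → ℕ) → Prop` mean: for all `ρ : Fin k → ℕ`, the predicate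
`fun e => R (fun i => e (ρ i))` is `Arith 𝓜`. Closure of `Ar`: negation, conjunction (hence all
propositional combinations); change of variables (`Ar k R → Ar l (fun v => R (v ∘ σ))` for
`σ : Fin k → Fin l`, immediate); quantifier `Ar (k+1) R → Ar k (fun v => ∃ a, R (Fin.cons a v))`:
given `ρ` choose a number `j` not in the range of `ρ` and use `Arith.ex j` for the placement
`Fin.cons j ρ`. Equality: `i = j` iff `∃ z, z + z = z ∧ i + z = j`; order `i ≤ j` iff
`∃ z, i + z = j`; the numbers `0` (`z + z = z`) and `1` (`z * z = z`, not `0`) are definable.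
Call `f : (Fin k → ℕ) → ℕ` definable if its graph `fun v : Fin (k+1) → ℕ => f (Fin.tail v) = v 0`
is `Ar (k+1)`; definable functions are closed under composition and can be substituted into `Ar`
predicates. Sum, product, successor, constants, projections are definable, hence
`Nat.pair a b = if a < b then b * b + a else a * a + a + b`, `unpair`, and Goedel's function
`Nat.beta c i = c.unpair.1 % (1 + (i + 1) * c.unpair.2)` (remainder `r`: `∃ q, a = q * d + r ∧ r < d`).
By induction on `Nat.Primrec f` the graph of `f` is definable: the only case with content is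
`prec`: `f (pair a n) = y` iff there is `c` with `Nat.beta c 0 = f₀ a`,
`∀ i < n, Nat.beta c (i+1) = g (pair a (pair i (Nat.beta c i)))` and `Nat.beta c n = y`
(`Nat.beta_unbeta_coe` of Mathlib gives `c`). Finally `zero`, `compl`, `inter`, `preimage`
(`∃ y, f x = y ∧ y ∈ X`), `proj` are instances of comprehension. -/
theorem closed_of_aca {𝓜 : Set (Set ℕ)} (h : IsOmegaModelACA 𝓜) : Closed 𝓜 := sorry

/-- **JOC** (Jockusch: Ramsey's theorem inside `𝓜`).

Proof. Induction on `K`, for all `H₀`, `P`. `K = 0`: take `H = H₀`, the only list is `[]`.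
`K + 1`: for a list `l` let `R(l)` be the set of all `b ∈ H₀` which are greater than all members of
`l` and satisfy: for all `j < |l|` and all increasing lists `S` of `K` members of `l.take j`,
`P (S ++ [b]) ↔ P (S ++ [l_j])`. Let `I l` be: `l` is strictly increasing, its members are in `H₀`,
`R(l)` is infinite (`∀ N, ∃ b > N, b ∈ R(l)`) and for all `i < |l|`, `l_i ∈ R(l.take i)`. `I` is `D`
(quantifiers over lists and numbers; `list_getElem?`, `list_take` are primitive recursive).
`I []` holds as `H₀` is infinite. If `I l`, the map which sends `b ∈ R(l)` to the set of all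
increasing `K`-lists `S` of members of `l` with `P (S ++ [b])` has a finite range (there are
finitely many `S`), so it has an infinite fibre; let `x` be the least element of this fibre: then
`R(l ++ [x])` contains all larger members of the fibre, so `I (l ++ [x])`. By `exists_seq` there
is `a`, `DF a`, strictly increasing, with values in `H₀`, such that for all `K`-lists `S` increasing
with members in `{a_i | i < j}` and all `i ≥ j`: `P (S ++ [a_i]) ↔ P (S ++ [a_j])`. Let `A` be the
range of `a` (in `𝓜`) and apply the induction hypothesis to `A` and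
`P' S := ∃ b ∈ A, (∀ x ∈ S, x < b) ∧ P (S ++ [b])` to get `H ⊆ A`. For an increasing `K`-list `S` of
`A` the truth of `P (S ++ [b])` is the same for all `b ∈ A` above `S`, so `P` holds for all, or for
no, increasing `(K+1)`-lists of `H`. -/
theorem ramsey {𝓜 : Set (Set ℕ)} (h : Closed 𝓜) (K : ℕ) (H₀ : Set ℕ) (h₀ : H₀ ∈ 𝓜)
    (hi : H₀.Infinite) (P : List ℕ → Prop) (hP : D 𝓜 P) :
    ∃ H ⊆ H₀, H ∈ 𝓜 ∧ H.Infinite ∧ ((∀ l, Inc H K l → P l) ∨ (∀ l, Inc H K l → ¬ P l)) := sorry

/-- **LIM**.

Proof. (1) One predicate: for `P : ℕ → List ℕ → Prop` with `D 𝓜 fun q : ℕ × List ℕ => P q.1 q.2`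
and an infinite `H₀ ∈ 𝓜` there is an infinite `H ⊆ H₀` in `𝓜` such that for all `h ∈ H`, `p ≤ h` and
`q, q'` with `Inc (H ∩ {x | h < x}) K q`, `Inc (H ∩ {x | h < x}) K q'`: `P p (h :: q) ↔ P p (h :: q')`.
Apply `ramsey` to lists of length `2 * K + 1` and the predicate
`Same z := ∀ h q q', z = h :: (q ++ q') → q.length = K → q'.length = K →
  ∀ p ≤ h, (P p (h :: q) ↔ P p (h :: q'))`.
The case `¬ Same` for all increasing lists of `H` is impossible: let `h` be the least element of
`H`; the type `{p ≤ h | P p (h :: q)}` of a `K`-list `q` is one of `2 ^ (h+1)` sets, and there are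
infinitely many consecutive blocks `q^0 < q^1 < ...` of `K` elements of `H` above `h` (enumerate `H`
by `Nat.nth`, `Nat.orderEmbeddingOfSet` or the like), so two blocks `q^a < q^b` have the same type and
`Same (h :: (q^a ++ q^b))`. So `Same` always. For arbitrary `q, q'` above `h` choose `q''` of
length `K` in `H` above `h` and all members of `q, q'`: `P p (h :: q) ↔ P p (h :: q'') ↔
P p (h :: q')`. (2) The property of (1) passes to infinite subsets `H' ⊆ H`, so it can be reached
for finitely many predicates, one after the other: apply (1) to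
`P p l := (π.map fun c => (p :: l).getD c 0) ∈ R i` for all `i < s` and the finitely many `π` with
`π.length ≤ K` and entries `< K + 2` (`D`, as for a fixed `π` the function
`(p, l) ↦ π.map fun c => (p :: l).getD c 0` is primitive recursive). Finally apply `ramsey` with
`K = 1` to `P l := List.replicate k l.head! ∈ R i` for all `i < s`, `k ≤ K`. -/
theorem exists_lim {𝓜 : Set (Set ℕ)} (h : Closed 𝓜) (R : ℕ → Set (List ℕ))
    (hR : ∀ i, D 𝓜 fun l : List ℕ => l ∈ R i) (s K : ℕ) :
    ∃ H : Set ℕ, H ∈ 𝓜 ∧ H.Infinite ∧ Lim R H s K ∧ Rep R H s K := sorry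

/-- **GAP**.

Proof. `ramsey` with `K = 1` for the finitely many predicates `lab x = c` (one after the other;
homogeneity passes to subsets): `lab` is constant on `H`. Then `ramsey` with `K = 2` for the
finitely many predicates `gapProd [x, y] = g`, `g ∈ M`, where
`gapProd [x, y] = ((List.range (y - x - 1)).map fun t => ν (lab (x + 1 + t))).prod`; since the value
is some `g` for one pair of `H`, `gapProd = g` for all pairs. Definability of
`fun l => gapProd l = g`: code `M` by `Fin N` (`Finite.equivFin`), use `DF.nat_rec` for the product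
of the first `n` factors (`List.range_succ`, `List.prod_append`), all functions between finite types
are primitive recursive (`Primrec.dom_finite`), and `fun p => e (ν (lab p))` is `DF` because of
`hlab` (`D.exFin` over the labels). -/
theorem exists_gap {𝓜 : Set (Set ℕ)} (h : Closed 𝓜) (H₀ : Set ℕ) (h₀ : H₀ ∈ 𝓜)
    (hi : H₀.Infinite) {Λ : Type} [Finite Λ] (lab : ℕ → Λ) (hlab : ∀ c, D 𝓜 fun p : ℕ => lab p = c)
    {M : Type} [Monoid M] [Finite M] (ν : Λ → M) :
    ∃ H ⊆ H₀, H ∈ 𝓜 ∧ H.Infinite ∧ (∃ c, ∀ p ∈ H, lab p = c) ∧ ∃ g : M, ∀ x ∈ H, ∀ y ∈ H, x < y →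
      ((List.range (y - x - 1)).map fun t => ν (lab (x + 1 + t))).prod = g := sorry

/-- **BU1** (Buchi's theorem for words of cells; the alphabet may be infinite).

Proof. Closure of `Rec`: (a) if `L j`, `j ∈ J` finite, are `Rec` and `F : (J → Prop) → Prop` then
`fun u => F fun j => L j u` is `Rec` (product monoid `∀ j, M j`); in particular negation,
conjunction. (b) projection: if `L` is `Rec` and `r : C → C' → Prop` then
`fun u => ∃ u', List.Forall₂ r u u' ∧ L u'` is `Rec`: the monoid `Set M'` with pointwise product
(`open Pointwise`, finite), `μ c = {μ' c' | r c c'}`; by induction on `u`,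
`x ∈ (u.map μ).prod ↔ ∃ u', List.Forall₂ r u u' ∧ (u'.map μ').prod = x`. (c) finite automata: if `Q`
is finite and `δ : Q → C → Q` then `fun u => u.foldl δ q₀ ∈ F` is `Rec` (monoid `(Q → Q)` with
reversed composition, e.g. `(Function.End Q)ᵐᵒᵖ`).
Induction on `φ`. `lt x y`: the automaton with states `0, 1, 2`, state `0` until a cell is marked,
then `2` if this cell is marked by `y`, else `1` if it is marked by `x`; accept `1`: by induction on
`u` (from the left, `List.findIdx_cons`) this is `foldVal x < foldVal y`. `letter s x`: automaton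
`0`, then at the first cell marked by `x` state `1` if its symbol is `s` and `2` otherwise, accept
`1`. `mem x Y`: the same with `c.so Y`. `rel i xs`: `hrel`. `neg`, `and`: (a). `ex x φ`: (b) with
`r c c'`: same base, same `so`, `c'.fo y ↔ c.fo y` for all `y ≠ x`, applied to the language of `φ`
and `∃ c' ∈ u', c'.fo x`: if `u'` is such a word then `foVal u' = Function.update (foVal u) x p`,
`p = foVal u' x < |u|`, `soVal u' = soVal u` and the base word is unchanged; conversely for
`p < |u|` mark exactly the cell `p` (`List.mapIdx`). `exSet Y φ`: (b) with `r c c'`: same base, same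
`fo`, `c'.so Z ↔ c.so Z` for all `Z ≠ Y`. -/
theorem bu1 {m : ℕ} (a₀ : Fin m) (R : ℕ → Set (List ℕ)) {B : Type} (sym : B → Sym m)
    (Good : List B → Prop) (s K : ℕ)
    (hrel : ∀ i < s, ∀ xs : List ℕ, xs.length ≤ K → ∃ L : List (Cell B) → Prop, Rec L ∧
      ∀ u, Good (u.map Cell.base) → (L u ↔
        ((∀ x ∈ xs, (u.map fun c => sym c.base)[foVal u x]? = some (Sum.inl a₀) →
          ∀ y ∈ xs, foVal u x ≤ foVal u y) ∧ xs.map (foVal u) ∈ R i)))
    (φ : Form m) (hφ : φ.Bdd s K) :
    ∃ L : List (Cell B) → Prop, Rec L ∧ ∀ u, Good (u.map Cell.base) →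
      (L u ↔ Holds a₀ R (u.map fun c => sym c.base) (foVal u) (soVal u) φ) := sorry

/-- **BU2** (the advice relations on words with support in `H`).

Proof. Fix `i < s` and `xs`, `k = |xs| ≤ K`. Call basic the following finitely many languages of
cell words (`x, y ∈ xs`): `foVal u x < foVal u y`; `foVal u x = |u|` (no mark `x`); the symbol of the
first cell marked by `x` is `a₀`; the label of this cell satisfies `c.2.2 i k π` (for each `π`);
`NoH(x, y)`: no cell strictly between `foVal u x` and `foVal u y` has `c.2.1` (label: position in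
`H`). All are recognised by automata with at most 4 states reading the cells from the left
(for `NoH(x, y)`: state 0 nothing seen; at a cell marked by `y` go to 3; at a cell marked by `x` (not
`y`) go to 1; in state 1 at a cell marked by `y` go to 3, else at a cell with `c.2.1` go to 2; 2, 3
absorbing; reject 2), see BU1 (c). CLAIM: if `u, u'` are good words with the same basic truth
values then the relation atom is true in `u` iff it is true in `u'`. Then `L u := ∃ u'` good with
the same basic truth values as `u` and with the atom true in `u'`, is a Boolean function of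
finitely many `Rec` languages (BU1 (a)) and is as required.
Proof of the claim. The side condition (an entry at a position with `a₀` is minimal) is determined
by the basic values; assume it. Let `l = xs.map (foVal u)`, `l' = xs.map (foVal u')`; these lists
have the same order pattern. If all entries of `l` are `|u|` then all entries of `l'` are `|u'|`, and
`Rep R H s K` gives the claim (`k = 0` included). Otherwise let `p < |u|`, `p' < |u'|` be the least
entries (attained at the same index). All entries `> p` of `l` belong to `H` (they are positions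
with a symbol different from `a₀`, or the length). Let `h = nxt H p`, so entries `> p` are `≥ h`, and
an entry `l_j > p` equals `h` iff no element of `H` is strictly between `p` and `l_j`, iff
`NoH(x_min, x_j)` (the cells strictly between carry the labels `labOf`, whose first component is
membership in `H`). Choose indices `j_0, ..., j_(r-1)`, `r ≤ K`, such that `l_(j_0) < l_(j_1) < ...`
are exactly the distinct entries `> h` of `l`, and let `q` be the list of these entries followed by
elements of `H` above them, `K` elements in total. Let `π_a = 0` if `l_a = p`, `1` if `l_a = h`, and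
`2 + c` if `l_a = l_(j_c)`. Then `l = π.map fun c => (p :: h :: q).getD c 0`, `Inc (H ∩ {x | h < x}) K q`,
and by `Lim`, with `q' = [nxt^2 p, ..., nxt^(K+1) p]`, `l ∈ R i` iff `(π.map fun c => (nxt H)^[c] p) ∈ R i`,
which is the label `(labOf R H s K p).2 i k π` of the cell `p` (pad `π` to `Fin K → Fin (K+2)`). The
same `π` and the same indices work for `l'` because the order patterns and the `NoH` values are the
same, so `l' ∈ R i` iff `(labOf R H s K p').2 i k π`, and the two labels agree by the basic values. -/
theorem bu2 {m : ℕ} (a₀ : Fin m) (R : ℕ → Set (List ℕ)) (H : Set ℕ) (hH : H.Infinite) (s K : ℕ)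
    (hlim : Lim R H s K) (hrep : Rep R H s K) (i : ℕ) (hi : i < s) (xs : List ℕ)
    (hxs : xs.length ≤ K) :
    ∃ L : List (Cell (Sym m × Lab s K)) → Prop, Rec L ∧
      ∀ u, GoodW a₀ R H s K (u.map Cell.base) → (L u ↔
        ((∀ x ∈ xs, (u.map fun c => c.base.1)[foVal u x]? = some (Sum.inl a₀) →
          ∀ y ∈ xs, foVal u x ≤ foVal u y) ∧ xs.map (foVal u) ∈ R i)) := sorry

/-- **UWA** (the universal words, algebraic part).

Proof. Facts in a finite monoid in which all `x ^ N` are idempotent, `N > 0`.
(F1) If `e * e = e`, `f * f = f`, `e * f = f`, `f * e = f` and `a * f * b = e` then `f = e`: put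
`a' = e * a * f`, `b' = f * b * e`; then `a' * b' = e`, `a' * e = a'`, `a' * f = a'`, by induction
`a' ^ n * b' ^ n = e` for `n ≥ 1`, so `a' ^ N = a' ^ N * e = a' ^ N * (a' ^ N * b' ^ N) =
a' ^ N * b' ^ N = e`, hence `e * f = a' ^ N * f = a' ^ N = e`, and `e * f = f`.
(F2) If `MinIdem S e` and `m ∈ S` then `(e * m * e) ^ N = e`: `f = (e * m * e) ^ N` is an idempotent
of `S` with `e * f = f = f * e`; apply `MinIdem` to `x = f`.
(F3) If `MinIdem S₀ e₀'` for some `S₀ = S`, and `x ∈ S` has a factor in the minimal ideal, i.e.
`x = u * k * v` with `u, v ∈ S`, `∀ y ∈ S, ∃ a b ∈ S, a * y * b = k`, then `x ^ N` satisfies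
`MinIdem S (x ^ N)`.
Claim by induction on `r`, for all `b` and `μ`: there is `e : ℕ → M` with, for all `s ≤ r`:
`MinIdem (Sgen μ b s) (e s)`, and for all `v` with `VW b s v`:
`((sub v (V N κ r b v.length)).map μ).prod = e s`. `r = 0`: `s = 0`, `e 0 = ((κ b).map μ).prod` (`Kap`;
`κ b` has no variables, so `sub v (κ b) = κ b`). `r + 1`: let `e 0 = ((κ b).map μ).prod` and
`e (s+1) = (e s * μ (inr s) * e' s * e s) ^ N` where `e' s` is the value of level `s` given by the
induction hypothesis for `r`, `b + 1` and `μ' = μ` except `μ' (inl b) = μ (inr s)`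
(`e' s` depends on `s` through `μ'`). `MinIdem (Sgen μ b (s+1)) (e (s+1))` holds by (F3), because
`Sgen μ' (b+1) s = Sgen μ b (s+1)` and `e' s` is in its minimal ideal. Now show the claim for `v`
by induction on `|v|` (`List.reverseRecOn`), for all `s ≤ r + 1`: `v = []`: `s = 0` and
`V N κ (r+1) b 0 = κ b`. `v = v' ++ [a]`, `j = |v'|`: the word
`sub v (V_(j+1))` is the `N`-th power of `sub v' V_j ++ [a] ++ Y ++ sub v' V_j` where
`Y = sub v ((V N κ r (b+1) j).map (ren b j))` (the variables of `V_j` and of `V N κ r (b+1) j` are
`inr i` with `i < j`, by an easy induction). (i) If `v'` is itself an `s`-variable word then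
(`a` is a letter `< b` or a variable `< s`) the value is `(e s * m * e s) ^ N` with
`m = μ a * (value of Y) ∈ Sgen μ b s`, and this is `e s` by (F2). (ii) Otherwise `a = inr (s-1)` and
`v'` is an `(s-1)`-variable word; the value of `Y` is the value under `μ'` (with
`μ' (inl b) = μ (inr (s-1))`) of `sub v' (V N κ r (b+1) j)`, that is `e' (s-1)`, as `v'` is also a
`(s-1)`-variable word over the letters `< b + 1`; so the value is
`(e (s-1) * μ (inr (s-1)) * e' (s-1) * e (s-1)) ^ N = e s`. -/
theorem V_const {M : Type} [Monoid M] [Finite M] (N : ℕ) (hN : 0 < N)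
    (hid : ∀ x : M, x ^ N * x ^ N = x ^ N) (κ : ℕ → List (ℕ ⊕ ℕ)) (hκ : Kap M κ) (r b : ℕ)
    (μ : ℕ ⊕ ℕ → M) :
    ∃ e : ℕ → M, ∀ s ≤ r, MinIdem (Sgen μ b s) (e s) ∧ ∀ v : List (ℕ ⊕ ℕ), VW b s v →
      ((sub v (V N κ r b v.length)).map μ).prod = e s := sorry

/-- **UWK** (existence of the constant words `κ b` and of the exponent `N`).

Proof. `N`: every element `x` of a finite monoid has a power `x ^ n`, `n > 0`, which is idempotent
(Mathlib: `exists_pow_idempotent`-like, or: `x ^ i = x ^ (i + p)` with `i, p ≥ 1`, then `x ^ (i * p)`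
is idempotent); take the product of these exponents over all `x`. `κ b`: for each
`μ : Fin b → M` and each `x` in the submonoid generated by the range of `μ` choose a word over
`Fin b` with value `x` (`Submonoid.exists_list_of_mem_closure`); let `u` be the concatenation of the
chosen words for all pairs `(μ, x)` (finitely many), in any order, and `κ b` the `N`-th power of
`u`, as a list of `inl c`. For a given `μ : ℕ ⊕ ℕ → M` let `S = Sgen μ b 0`; every `x ∈ S` is the
value of a factor of `u`: value of `u` is `y * x * z` with `y, z ∈ S`. Choose `x` in the minimal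
ideal of `S`, i.e. such that `∀ t ∈ S, ∃ a b ∈ S, a * t * b = x` (exists: take the product of all
elements of `S`, it is `a * t * b` for each `t ∈ S`); then `(value of u)` and all its positive powers
have this property, and the `N`-th power is idempotent. -/
theorem exists_kap (M : Type) [Monoid M] [Finite M] :
    ∃ N : ℕ, 0 < N ∧ (∀ x : M, x ^ N * x ^ N = x ^ N) ∧ ∃ κ : ℕ → List (ℕ ⊕ ℕ), Kap M κ := sorry

/-- **UWP** (from the words `V` to an omega-variable word).

Proof. Take `N, κ` from `exists_kap` and `V_j = V N κ (n+1) m j`. `V_(j+1)` begins with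
`V_j ++ [inr j]` (as `N > 0`), the letters of `V_j` are `inl c` with `c < m` and `inr i` with `i < j`
(induction, using `Kap` for `κ`), so `|V_j| ≥ j`, and there is a unique `W' : ℕ → ℕ ⊕ ℕ` all of whose
initial segments of length `|V_j|` are `V_j`, with `W' (|V_j|) = inr j`:
`W' p = (V_(p+1)).getD p (inl 0)`. Let `W p` be `inl ⟨c, _⟩` if `W' p = inl c` (`c < m`; junk value
`inl a₀` otherwise) and `inr i` if `W' p = inr i`. The first occurrence of `x_j` in `W` is at `|V_j|`,
so `W` is an omega-variable word, and `subst W v` corresponds to `sub v' V_|v|` where `v'` is `v`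
with `inl a` read as `inl a.val`; `IsVarWord n v` gives `VW m n v'`. For `μ : Sym m → M` let
`μ' (inl c) = μ (inl ⟨c, _⟩)` if `c < m` and `μ (inl a₀)` otherwise, `μ' (inr i) = μ (inr i)`, and use
`V_const` with `r = n + 1`, `s = n`. `W` is primitive recursive: for fixed `r`, `b` the function
`j ↦ V N κ r b j` is primitive recursive by induction on `r` (all `b`): `Primrec.nat_rec`,
`Primrec.list_append`, `Primrec.list_map`, a fixed number `N` of concatenations. -/
theorem universal {M : Type} [Monoid M] [Finite M] {m : ℕ} (a₀ : Fin m) (n : ℕ) :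
    ∃ W : ℕ → Sym m, IsOmegaWord W ∧ Primrec W ∧ ∀ μ : Sym m → M, ∃ e : M,
      ∀ v, IsVarWord n v → ((subst W v).map μ).prod = e := sorry

/-- **LAB** (the labels are definable).

Proof. `nxt H` is `DF` (`DF.sInf`), so its finite iterates are (`DF.comp`, induction on the number of
iterations); for fixed `i, k, π` the function `p ↦ ((List.ofFn π).take k).map fun c => (nxt H)^[c] p` is
`DF` (induction on the list: `cons` is primitive recursive), so the set of all `p` for which this
list belongs to `R i` is `D`. The condition `labOf R H s K p = c` is a finite conjunction of such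
conditions and of `p ∈ H ↔ c.1` (propositional extensionality). -/
theorem labOf_def {𝓜 : Set (Set ℕ)} (h : Closed 𝓜) (R : ℕ → Set (List ℕ))
    (hR : ∀ i, D 𝓜 fun l : List ℕ => l ∈ R i) (H : Set ℕ) (hH : H ∈ 𝓜) (s K : ℕ) (c : Lab s K) :
    D 𝓜 fun p : ℕ => labOf R H s K p = c := sorry

end Pool.Agent.Helper29.OV
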