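import Pool.Agent.Helper29.OV.Api

/-!
# The labels of the positions are definable
-/

namespace Pool.Agent.Helper29.OV

theorem D.mem_set {𝓜 : Set (Set ℕ)} {H : Set ℕ} (hH : H ∈ 𝓜) : D 𝓜 fun n : ℕ => n ∈ H :=
  D.nat_iff.2 hH

theorem nxt_def {𝓜 : Set (Set ℕ)} (h : Closed 𝓜) {H : Set ℕ} (hH : H ∈ 𝓜) : DF 𝓜 (nxt H) := by
  refine DF.sInf (P := fun (p x : ℕ) => x ∈ H ∧ p < x) h ?_
  refine D.and h ?_ ?_
  · exact D.comp h (D.mem_set hH) Primrec.snd
  · exact D.of_primrec h (Primrec.nat_lt.comp Primrec.fst Primrec.snd)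

theorem nxt_iter_def {𝓜 : Set (Set ℕ)} (h : Closed 𝓜) {H : Set ℕ} (hH : H ∈ 𝓜) (c : ℕ) :
    DF 𝓜 fun p => (nxt H)^[c] p := by
  induction c with
  | zero => exact DF.of_primrec h Primrec.id
  | succ c ih =>
    simp only [Function.iterate_succ_apply']
    exact DF.comp h (nxt_def h hH) ih

theorem map_iter_def {𝓜 : Set (Set ℕ)} (h : Closed 𝓜) {H : Set ℕ} (hH : H ∈ 𝓜) {n : ℕ}
    (l : List (Fin n)) : DF 𝓜 fun p => l.map fun c => (nxt H)^[(c : ℕ)] p := by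
  induction l with
  | nil => exact DF.of_primrec h (Primrec.const [])
  | cons c l ih =>
    change DF 𝓜 fun p => (nxt H)^[(c : ℕ)] p :: l.map fun c => (nxt H)^[(c : ℕ)] p
    exact DF.comp h (g := fun q : ℕ × List ℕ => q.1 :: q.2)
      (DF.of_primrec h (Primrec.list_cons.comp Primrec.fst Primrec.snd))
      (DF.pair h (nxt_iter_def h hH c) ih)

theorem labOf_def {𝓜 : Set (Set ℕ)} (h : Closed 𝓜) (R : ℕ → Set (List ℕ))
    (hR : ∀ i, D 𝓜 fun l : List ℕ => l ∈ R i) (H : Set ℕ) (hH : H ∈ 𝓜) (s K : ℕ) (c : Lab s K) :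
    D 𝓜 fun p : ℕ => labOf R H s K p = c := by
  have h1 : D 𝓜 fun p : ℕ => (p ∈ H ↔ c.1) := D.iff h (D.mem_set hH) (D.const h c.1)
  have h2 : D 𝓜 fun p : ℕ => ∀ i : Fin s, ∀ k : Fin (K + 1), ∀ π : Fin K → Fin (K + 2),
      ((((List.ofFn π).take k).map fun c => (nxt H)^[(c : ℕ)] p) ∈ R i ↔ c.2 i k π) := by
    refine D.allFin h fun i => D.allFin h fun k => D.allFin h fun π => ?_
    exact D.iff h (D.compF h (hR i) (map_iter_def h hH _)) (D.const h _)
  refine (D.and h h1 h2).congr fun p => ?_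
  constructor
  · rintro ⟨h3, h4⟩
    apply Prod.ext
    · exact propext h3
    · funext i k π
      exact propext (h4 i k π)
  · rintro h3
    refine ⟨?_, fun i k π => ?_⟩
    · rw [← h3]; rfl
    · rw [← h3]; rfl

end Pool.Agent.Helper29.OV
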