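import Pool.Agent.Helper29.OV.Word
import Pool.Agent.Helper29.OV.Buchi

/-!
# Theorem OV: assembly
-/

namespace Pool.Agent.Helper29.OV

open Encodable

theorem Form.Bdd.mono {m : ℕ} {s K s' K' : ℕ} (hs : s ≤ s') (hK : K ≤ K') (φ : Form m)
    (h : φ.Bdd s K) : φ.Bdd s' K' := by
  induction φ with
  | lt _ _ => trivial
  | letter _ _ => trivial
  | rel i xs => exact ⟨lt_of_lt_of_le h.1 hs, h.2.trans hK⟩
  | mem _ _ => trivial
  | neg φ ih => exact ih h
  | and φ ψ ih1 ih2 => exact ⟨ih1 h.1, ih2 h.2⟩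
  | ex _ φ ih => exact ih h
  | exSet _ φ ih => exact ih h

theorem Form.exists_bdd {m : ℕ} (φ : Form m) : ∃ s, φ.Bdd s s := by
  induction φ with
  | lt _ _ => exact ⟨0, trivial⟩
  | letter _ _ => exact ⟨0, trivial⟩
  | rel i xs => exact ⟨i + 1 + xs.length, by simp only [Form.Bdd]; omega⟩
  | mem _ _ => exact ⟨0, trivial⟩
  | neg φ ih => exact ih
  | and φ ψ ih1 ih2 =>
    obtain ⟨s, hs⟩ := ih1
    obtain ⟨t, ht⟩ := ih2
    exact ⟨max s t, Form.Bdd.mono (le_max_left _ _) (le_max_left _ _) φ hs,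
      Form.Bdd.mono (le_max_right _ _) (le_max_right _ _) ψ ht⟩
  | ex _ φ ih => exact ih
  | exSet _ φ ih => exact ih

theorem exists_bdd_all {m ℓ : ℕ} (φ : Fin ℓ → Form m) : ∃ s, ∀ c, (φ c).Bdd s s := by
  choose s hs using fun c => (φ c).exists_bdd
  exact ⟨Finset.univ.sup s, fun c => Form.Bdd.mono (Finset.le_sup (Finset.mem_univ c))
    (Finset.le_sup (Finset.mem_univ c)) _ (hs c)⟩

theorem main {m : ℕ} (a₀ : Fin m) (n : ℕ) {ℓ : ℕ} (f : List (Sym m) → Fin ℓ)
    (𝓜 : Set (Set ℕ)) (h𝓜 : IsOmegaModelACA 𝓜) (R : ℕ → Set (List ℕ))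
    (hR : ∀ i, {k | ∃ l ∈ R i, k = encode l} ∈ 𝓜)
    (hf : ∀ c, ∃ φ : Form m, ∀ w, IsVarWord n w → (f w = c ↔ Models a₀ R w φ)) :
    ∃ W : ℕ → Sym m, IsOmegaWord W ∧ {k | ∃ p, k = Nat.pair p (encode (W p))} ∈ 𝓜 ∧
      ∃ c, ∀ v, IsVarWord n v → f (subst W v) = c := by
  have h := closed_of_aca h𝓜
  have hR' : ∀ i, D 𝓜 fun l : List ℕ => l ∈ R i := by
    intro i
    refine (D.comp h (D.nat_iff.2 (hR i)) Primrec.encode).congr fun l => ?_
    constructor
    · rintro ⟨l', hl', he⟩
      rwa [encode_injective he]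
    · intro hl
      exact ⟨l, hl, rfl⟩
  choose φ hφ using hf
  obtain ⟨s, hs⟩ := exists_bdd_all φ
  obtain ⟨H₀, hH₀, hH₀i, hlim, hrep⟩ := exists_lim h R hR' s s
  choose M iM fM ν T hT using fun c => buchi a₀ R H₀ hH₀i s s hlim hrep (φ c) (hs c)
  obtain ⟨H, hHH₀, hHM, hHi, ⟨c, hc⟩, g, hg⟩ := exists_gap h H₀ hH₀ hH₀i (labOf R H₀ s s)
    (labOf_def h R hR' H₀ hH₀ s s) (M := ∀ c, M c) (fun la c => ν c (Sum.inl a₀) la)
  obtain ⟨U, hU, hUp, hUe⟩ := universal (M := ∀ c, M c) a₀ n
  obtain ⟨e, he⟩ := hUe fun b => (fun c' => ν c' b c) * g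
  have hW := spread_omega a₀ hHi U hU
  refine ⟨spread a₀ H U, hW, graph_mem h (spread_def a₀ h hHM hUp), ?_⟩
  set γ₀ : ∀ c, M c := ((List.range (Nat.nth (· ∈ H) 0)).map fun p =>
    (fun c' => ν c' (Sum.inl a₀) (labOf R H₀ s s p) : ∀ c, M c)).prod with hγ₀
  have key : ∀ v, IsVarWord n v → ∀ c', f (subst (spread a₀ H U) v) = c' ↔ (γ₀ * e) c' ∈ T c' := by
    intro v hv c'
    rw [hφ c' _ (isVarWord_subst hW hv)]
    have hlen : (subst (spread a₀ H U) v).length = Nat.nth (· ∈ H) (first U v.length) := by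
      rw [subst_length, first_spread a₀ hHi U hU]
    rw [hT c' (subst (spread a₀ H U) v) ?_ ?_]
    · have h1 := prod_spread a₀ U (M := ∀ c, M c) (labOf R H₀ s s)
        (fun sy la c' => ν c' sy la) hHi c hc g hg v (first U v.length)
      have h2 : ((List.range (first U v.length)).map fun q =>
          (fun c' => ν c' (substSym v (U q)) c : ∀ c, M c) * g).prod = e := by
        rw [← he v hv, subst_eq, List.map_map]
        rfl
      rw [h2] at h1
      have h3 := congrFun h1 c'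
      have h4 : ((List.range (subst (spread a₀ H U) v).length).map fun p =>
          ν c' ((subst (spread a₀ H U) v).getD p (Sum.inl a₀)) (labOf R H₀ s s p)).prod =
          ((List.range (Nat.nth (· ∈ H) (first U v.length))).map fun p =>
            (fun c' => ν c' (substSym v (spread a₀ H U p)) (labOf R H₀ s s p) :
              ∀ c, M c)).prod c' := by
        refine Eq.trans ?_ (map_list_prod (Pi.evalMonoidHom M c') _).symm
        rw [List.map_map, hlen]
        congr 1
        apply List.map_congr_left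
        intro p hp
        rw [List.mem_range] at hp
        have hp' : p < first (spread a₀ H U) v.length := by
          rw [first_spread a₀ hHi U hU]
          exact hp
        simp only [Function.comp_apply, Pi.evalMonoidHom_apply]
        rw [List.getD_eq_getElem?_getD, subst_getElem? _ v p hp']
        rfl
      rw [h4, h3]
    · intro p sy hp hsy
      have hp' : p < first (spread a₀ H U) v.length := by
        by_contra hge
        rw [List.getElem?_eq_none (by rw [subst_length]; omega)] at hp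
        cases hp
      by_contra hpH
      rw [subst_getElem? _ v p hp', spread_notMem a₀ U (fun h' => hpH (hHH₀ h'))] at hp
      exact hsy (Option.some.inj hp).symm
    · rw [hlen]
      exact hHH₀ (nth_mem hHi _)
  by_cases hex : ∃ v : List (Sym m), IsVarWord n v
  · obtain ⟨v₁, hv₁⟩ := hex
    refine ⟨f (subst (spread a₀ H U) v₁), fun v hv => ?_⟩
    rw [key v hv, ← key v₁ hv₁]
  · exact ⟨f [], fun v hv => absurd ⟨v, hv⟩ hex⟩

end Pool.Agent.Helper29.OV
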