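import Pool.Agent.Helper29.OV.Red

/-!
# First order definable colourings belong to the model
-/

namespace Pool.Agent.Helper29.OV

open Encodable

variable {m : ℕ} {𝓜 : Set (Set ℕ)}

/-- The assignment given by a list of pairs. -/
def asg (w : List (Sym m)) (t : List (ℕ × ℕ)) (x : ℕ) : ℕ := (List.lookup x t).getD w.length

theorem asg_nil (w : List (Sym m)) : asg w [] = fun _ => w.length := rfl

theorem asg_cons (w : List (Sym m)) (t : List (ℕ × ℕ)) (x p : ℕ) :
    asg w ((x, p) :: t) = Function.update (asg w t) x p := by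
  funext y
  unfold asg
  by_cases h : y = x
  · subst h
    simp
  · rw [Function.update_of_ne h, List.lookup_cons]
    have : (y == x) = false := by simpa using h
    rw [this]

theorem asg_primrec (x : ℕ) : Primrec fun q : List (Sym m) × List (ℕ × ℕ) => asg q.1 q.2 x :=
  Primrec.option_getD.comp (Primrec.listLookup.comp (Primrec.const x) Primrec.snd)
    (Primrec.list_length.comp Primrec.fst)

theorem D.allList (h : Closed 𝓜) {α ι : Type} [Primcodable α] {P : ι → α → Prop} (l : List ι)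
    (hP : ∀ i, D 𝓜 (P i)) : D 𝓜 fun a => ∀ i ∈ l, P i a := by
  induction l with
  | nil => exact (D.const h True).congr fun a => by simp
  | cons i l ih => exact (D.and h (hP i) ih).congr fun a => by simp

theorem map_asg_def (h : Closed 𝓜) (xs : List ℕ) :
    DF 𝓜 fun q : List (Sym m) × List (ℕ × ℕ) => xs.map (asg q.1 q.2) := by
  induction xs with
  | nil => exact DF.of_primrec h (Primrec.const [])
  | cons x xs ih =>
    change DF 𝓜 fun q : List (Sym m) × List (ℕ × ℕ) => asg q.1 q.2 x :: xs.map (asg q.1 q.2)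
    exact DF.comp h (g := fun q : ℕ × List ℕ => q.1 :: q.2)
      (DF.of_primrec h (Primrec.list_cons.comp Primrec.fst Primrec.snd))
      (DF.pair h (DF.of_primrec h (asg_primrec x)) ih)

theorem sat_def (h : Closed 𝓜) {r : ℕ → ℕ → Prop} (hr : D 𝓜 fun q : ℕ × ℕ => r q.1 q.2)
    (a₀ : Fin m) {R : ℕ → Set (List ℕ)} (hR : ∀ i, D 𝓜 fun l : List ℕ => l ∈ R i)
    (E : ℕ → Set ℕ) (φ : Form m) (hφ : φ.IsFirstOrder) :
    D 𝓜 fun q : List (Sym m) × List (ℕ × ℕ) => Sat r a₀ R q.1 (asg q.1 q.2) E φ := by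
  have hget : ∀ x : ℕ, Primrec fun q : List (Sym m) × List (ℕ × ℕ) => q.1[asg q.1 q.2 x]? :=
    fun x => Primrec.list_getElem?.comp Primrec.fst (asg_primrec x)
  induction φ with
  | lt x y => exact D.of_primrec h (Primrec.nat_lt.comp (asg_primrec x) (asg_primrec y))
  | letter s x =>
    exact D.of_primrec h (Primrec.eq.comp (hget x) (Primrec.const (some s)))
  | rel i xs =>
    refine D.and h ?_ ?_
    · refine D.allList (P := fun x (q : List (Sym m) × List (ℕ × ℕ)) =>
        q.1[asg q.1 q.2 x]? = some (Sum.inl a₀) → ∀ y ∈ xs, r (asg q.1 q.2 x) (asg q.1 q.2 y))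
        h xs fun x => ?_
      refine D.imp h (D.of_primrec h (Primrec.eq.comp (hget x)
        (Primrec.const (some (Sum.inl a₀))))) ?_
      refine D.allList (P := fun y (q : List (Sym m) × List (ℕ × ℕ)) =>
        r (asg q.1 q.2 x) (asg q.1 q.2 y)) h xs fun y => ?_
      exact D.comp h hr ((asg_primrec x).pair (asg_primrec y))
    · exact D.compF h (hR i) (map_asg_def h xs)
  | mem x Y => exact hφ.elim
  | neg φ ih => exact (ih hφ).not h
  | and φ ψ ih1 ih2 => exact D.and h (ih1 hφ.1) (ih2 hφ.2)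
  | ex x φ ih =>
    refine (D.ex (P := fun (q : List (Sym m) × List (ℕ × ℕ)) (p : ℕ) => p < q.1.length ∧
      Sat r a₀ R q.1 (asg q.1 ((x, p) :: q.2)) E φ) h (D.and h ?_ ?_)).congr fun q => ?_
    · exact D.of_primrec h (Primrec.nat_lt.comp Primrec.snd
        (Primrec.list_length.comp (Primrec.fst.comp Primrec.fst)))
    · exact D.comp h (ih hφ) ((Primrec.fst.comp Primrec.fst).pair
        (Primrec.list_cons.comp ((Primrec.const x).pair Primrec.snd)
          (Primrec.snd.comp Primrec.fst)))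
    · simp only [asg_cons]
      exact Iff.rfl
  | exSet Y φ ih => exact hφ.elim

theorem isVarWord_def (h : Closed 𝓜) (n : ℕ) : D 𝓜 fun v : List (Sym m) => IsVarWord n v := by
  -- membership
  have hmem : D 𝓜 fun q : List (Sym m) × ℕ => (Sum.inr q.2 : Sym m) ∈ q.1 := by
    refine (D.ex (P := fun (q : List (Sym m) × ℕ) (p : ℕ) => q.1[p]? = some (Sum.inr q.2)) h
      (D.of_primrec h ?_)).congr fun q => List.mem_iff_getElem?.symm
    exact Primrec.eq.comp (Primrec.list_getElem?.comp (Primrec.fst.comp Primrec.fst) Primrec.snd)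
      (Primrec.option_some.comp (Primrec.sumInr.comp (Primrec.snd.comp Primrec.fst)))
  have h1 : D 𝓜 fun v : List (Sym m) => ∀ i : ℕ, (Sum.inr i : Sym m) ∈ v → i < n := by
    refine D.all (P := fun (v : List (Sym m)) (i : ℕ) => (Sum.inr i : Sym m) ∈ v → i < n) h ?_
    exact D.imp h hmem (D.of_primrec h (Primrec.nat_lt.comp Primrec.snd (Primrec.const n)))
  have h2 : D 𝓜 fun v : List (Sym m) => ∀ i : ℕ, i < n → (Sum.inr i : Sym m) ∈ v := by
    refine D.all (P := fun (v : List (Sym m)) (i : ℕ) => i < n → (Sum.inr i : Sym m) ∈ v) h ?_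
    exact D.imp h (D.of_primrec h (Primrec.nat_lt.comp Primrec.snd (Primrec.const n))) hmem
  have h3 : D 𝓜 fun v : List (Sym m) => ∀ i : ℕ, ∀ p : ℕ, v[p]? = some (Sum.inr (i + 1)) →
      ∃ q : ℕ, q < p ∧ v[q]? = some (Sum.inr i) := by
    refine D.all (P := fun (v : List (Sym m)) (i : ℕ) => ∀ p : ℕ,
      v[p]? = some (Sum.inr (i + 1)) → ∃ q : ℕ, q < p ∧ v[q]? = some (Sum.inr i)) h ?_
    refine D.all (P := fun (v : List (Sym m) × ℕ) (p : ℕ) =>
      v.1[p]? = some (Sum.inr (v.2 + 1)) → ∃ q : ℕ, q < p ∧ v.1[q]? = some (Sum.inr v.2)) h ?_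
    refine D.imp h (D.of_primrec h ?_) ?_
    · exact Primrec.eq.comp (Primrec.list_getElem?.comp (Primrec.fst.comp Primrec.fst) Primrec.snd)
        (Primrec.option_some.comp (Primrec.sumInr.comp
          (Primrec.succ.comp (Primrec.snd.comp Primrec.fst))))
    · refine D.ex (P := fun (v : (List (Sym m) × ℕ) × ℕ) (q : ℕ) =>
        q < v.2 ∧ v.1.1[q]? = some (Sum.inr v.1.2)) h (D.and h (D.of_primrec h ?_)
          (D.of_primrec h ?_))
      · exact Primrec.nat_lt.comp Primrec.snd (Primrec.snd.comp Primrec.fst)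
      · exact Primrec.eq.comp (Primrec.list_getElem?.comp
          (Primrec.fst.comp (Primrec.fst.comp Primrec.fst)) Primrec.snd)
          (Primrec.option_some.comp (Primrec.sumInr.comp
            (Primrec.snd.comp (Primrec.fst.comp Primrec.fst))))
  refine (D.and h h1 (D.and h h2 h3)).congr fun v => ?_
  exact ⟨fun ⟨a, b, c⟩ => ⟨a, b, c⟩, fun ⟨a, b, c⟩ => ⟨a, b, c⟩⟩

theorem rel_of_adviceIn (h : Closed 𝓜) {R : ℕ → Set (List ℕ)} (hR : AdviceIn 𝓜 R) (i : ℕ) :
    D 𝓜 fun l : List ℕ => l ∈ R i := by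
  refine (D.comp h (D.nat_iff.2 (hR i)) Primrec.encode).congr fun l => ?_
  constructor
  · rintro ⟨l', hl', he⟩
    rwa [encode_injective he]
  · intro hl
    exact ⟨l, hl, rfl⟩

/-- `OVW` in `𝓜` gives solutions for first order definable two-colourings with advice in `𝓜`. -/
theorem solution_of_satOVW (h : Closed 𝓜) {n : ℕ} (h1 : SatOVW 𝓜 n 2 m) (a₀ : Fin m)
    {R : ℕ → Set (List ℕ)} (hR : AdviceIn 𝓜 R) (f : List (Sym m) → Fin 2) (φ : Form m)
    (hφ : φ.IsFirstOrder) (hd : Defines (· ≥ ·) a₀ R n f 1 φ) : HasSolution 𝓜 n f := by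
  classical
  have hr : D 𝓜 fun q : ℕ × ℕ => (q.1 ≥ q.2 : Prop) :=
    D.of_primrec h (Primrec.nat_le.comp Primrec.snd Primrec.fst)
  have hs : D 𝓜 fun w : List (Sym m) =>
      Sat (· ≥ ·) a₀ R w (fun _ => w.length) (fun _ => ∅) φ := by
    refine D.comp h (P := fun q : List (Sym m) × List (ℕ × ℕ) =>
      Sat (· ≥ ·) a₀ R q.1 (asg q.1 q.2) (fun _ => ∅) φ)
      (sat_def h hr a₀ (rel_of_adviceIn h hR) (fun _ => ∅) φ hφ)
      (f := fun w : List (Sym m) => (w, ([] : List (ℕ × ℕ)))) ?_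
    exact Primrec.id.pair (Primrec.const [])
  have hg : DF 𝓜 fun w : List (Sym m) =>
      if IsVarWord n w ∧ Sat (· ≥ ·) a₀ R w (fun _ => w.length) (fun _ => ∅) φ
        then (1 : Fin 2) else 0 :=
    DF.ite h (D.and h (isVarWord_def h n) hs) (DF.of_primrec h (Primrec.const _))
      (DF.of_primrec h (Primrec.const _))
  obtain ⟨W, hW, hWM, c, hc⟩ := h1 _ (colouringIn_of_DF h hg)
  refine ⟨W, hW, hWM, c, fun v hv => ?_⟩
  rw [← hc v hv]
  have hv' := isVarWord_subst hW hv
  have h2 := hd _ hv'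
  simp only [hv', true_and]
  split_ifs with h3
  · exact h2.2 h3
  · have h4 : f (subst W v) ≠ 1 := fun h5 => h3 (h2.1 h5)
    have h5 : ∀ c : Fin 2, c ≠ 1 → c = 0 := by decide
    exact h5 _ h4

end Pool.Agent.Helper29.OV
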