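import Pool.Agent.Helper29.OV.Defs

/-!
# MP_81e84b_lc: the notions of the final statement
-/

namespace Pool.Agent.Helper29.OV

/-- Truth of a formula in the word `w` with the advice relations `R`, at the assignments `e`
(number variables) and `E` (set variables). The relation `r` on numbers is `≤` or `≥`; an advice
relation is true of a tuple only if every entry `e x` of the tuple which is a position carrying the
letter `a₀` satisfies `r (e x) (e y)` for all entries `e y`. So for `≤` only the smallest entry of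
the tuple, and for `≥` only the greatest entry of the tuple, may be a position carrying `a₀`. -/
def Sat {m : ℕ} (r : ℕ → ℕ → Prop) (a₀ : Fin m) (R : ℕ → Set (List ℕ)) (w : List (Sym m)) :
    (ℕ → ℕ) → (ℕ → Set ℕ) → Form m → Prop
  | e, _, .lt x y => e x < e y
  | e, _, .letter s x => w[e x]? = some s
  | e, _, .rel i xs =>
      (∀ x ∈ xs, w[e x]? = some (Sum.inl a₀) → ∀ y ∈ xs, r (e x) (e y)) ∧ xs.map e ∈ R i
  | e, E, .mem x Y => e x ∈ E Y
  | e, E, .neg φ => ¬ Sat r a₀ R w e E φ
  | e, E, .and φ ψ => Sat r a₀ R w e E φ ∧ Sat r a₀ R w e E ψ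
  | e, E, .ex x φ => ∃ p, p < w.length ∧ Sat r a₀ R w (Function.update e x p) E φ
  | e, E, .exSet Y φ =>
      ∃ S : Set ℕ, (∀ p ∈ S, p < w.length) ∧ Sat r a₀ R w e (Function.update E Y S) φ

/-- The formula is first order: it has no set variables. -/
def Form.IsFirstOrder {m : ℕ} : Form m → Prop
  | .lt _ _ => True
  | .letter _ _ => True
  | .rel _ _ => True
  | .mem _ _ => False
  | .neg φ => φ.IsFirstOrder
  | .and φ ψ => φ.IsFirstOrder ∧ ψ.IsFirstOrder
  | .ex _ φ => φ.IsFirstOrder
  | .exSet _ _ => False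

/-- The advice relations are applied in the formula to at most two arguments. -/
def Form.IsBinary {m : ℕ} : Form m → Prop
  | .lt _ _ => True
  | .letter _ _ => True
  | .rel _ xs => xs.length ≤ 2
  | .mem _ _ => True
  | .neg φ => φ.IsBinary
  | .and φ ψ => φ.IsBinary ∧ ψ.IsBinary
  | .ex _ φ => φ.IsBinary
  | .exSet _ φ => φ.IsBinary

/-- The formula `φ`, read as a sentence, defines the set of all `n`-variable words of colour `c`.
Number variables which are not bound by a quantifier denote the length `|w|` of the word, and set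
variables which are not bound denote the empty set. -/
def Defines {m ℓ : ℕ} (r : ℕ → ℕ → Prop) (a₀ : Fin m) (R : ℕ → Set (List ℕ)) (n : ℕ)
    (f : List (Sym m) → Fin ℓ) (c : Fin ℓ) (φ : Form m) : Prop :=
  ∀ w, IsVarWord n w → (f w = c ↔ Sat r a₀ R w (fun _ => w.length) (fun _ => ∅) φ)

/-- The advice relations belong to `𝓜`. -/
def AdviceIn (𝓜 : Set (Set ℕ)) (R : ℕ → Set (List ℕ)) : Prop :=
  ∀ i, {k | ∃ l ∈ R i, k = Encodable.encode l} ∈ 𝓜

/-- The colouring belongs to `𝓜`. -/
def ColouringIn {m ℓ : ℕ} (𝓜 : Set (Set ℕ)) (f : List (Sym m) → Fin ℓ) : Prop :=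
  {k | ∃ w, k = Nat.pair (Encodable.encode w) (f w : ℕ)} ∈ 𝓜

/-- The colouring `f` of the `n`-variable words has a solution in `𝓜`: there are an omega-variable
word `W` in `𝓜` and a colour `c` such that `f (W[v]) = c` for all `n`-variable words `v`. -/
def HasSolution {m ℓ : ℕ} (𝓜 : Set (Set ℕ)) (n : ℕ) (f : List (Sym m) → Fin ℓ) : Prop :=
  ∃ W : ℕ → Sym m, IsOmegaWord W ∧ {k | ∃ p, k = Nat.pair p (Encodable.encode (W p))} ∈ 𝓜 ∧
    ∃ c, ∀ v, IsVarWord n v → f (subst W v) = c

/-- `𝓜` satisfies `OVW^n_ℓ(A)`, `A = Fin m`. -/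
def SatOVW (𝓜 : Set (Set ℕ)) (n ℓ m : ℕ) : Prop :=
  ∀ f : List (Sym m) → Fin ℓ, ColouringIn 𝓜 f → HasSolution 𝓜 n f

theorem sat_le_iff {m : ℕ} (a₀ : Fin m) (R : ℕ → Set (List ℕ)) (w : List (Sym m)) (φ : Form m) :
    ∀ e E, Sat (· ≤ ·) a₀ R w e E φ ↔ Holds a₀ R w e E φ := by
  induction φ with
  | lt x y => intro e E; exact Iff.rfl
  | letter s x => intro e E; exact Iff.rfl
  | rel i xs => intro e E; exact Iff.rfl
  | mem x Y => intro e E; exact Iff.rfl
  | neg φ ih => intro e E; exact not_congr (ih e E)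
  | and φ ψ ih1 ih2 => intro e E; exact and_congr (ih1 e E) (ih2 e E)
  | ex x φ ih => intro e E; exact exists_congr fun p => and_congr Iff.rfl (ih _ E)
  | exSet Y φ ih => intro e E; exact exists_congr fun S => and_congr Iff.rfl (ih e _)

end Pool.Agent.Helper29.OV
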